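import Mathlib

/-!
# Definitions for the barrier theorems on even-order Chowla averages
-/

namespace Pool.Agent.Helper8.Dilation

open Filter Topology

/-- `f` has values `±1` and satisfies the dilation relations of the Liouville function,
`f (p * n) = - f n` for all `n ≥ 1`, for all `p ∈ P`. -/
def LiouvilleOn (P : Set ℕ) (f : ℕ → ℝ) : Prop :=
  (∀ n, f n = 1 ∨ f n = -1) ∧ ∀ p ∈ P, ∀ n, 1 ≤ n → f (p * n) = - f n

/-- `B` has natural density zero. -/
def DensityZero (B : Set ℕ) : Prop :=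
  Tendsto (fun N : ℕ => ((B ∩ Set.Ioc 0 N).ncard : ℝ) / N) atTop (𝓝 0)

/-- `f` has values `±1`, and for each prime `p` the relation `f (p * n) = - f n` holds for all `n`
outside a set of natural density zero. -/
def AlmostLiouville (f : ℕ → ℝ) : Prop :=
  (∀ n, f n = 1 ∨ f n = -1) ∧ ∀ p : ℕ, p.Prime → DensityZero {n | f (p * n) ≠ - f n}

/-- `F` has values `±1` and is completely multiplicative (on positive integers). -/
def CompMult (F : ℕ → ℝ) : Prop :=
  (∀ n, F n = 1 ∨ F n = -1) ∧ ∀ m n, 1 ≤ m → 1 ≤ n → F (m * n) = F m * F n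

/-- The average of `∏ j, f (n + h j)` over `1 ≤ n ≤ N`. -/
noncomputable def avg {ℓ : ℕ} (f : ℕ → ℝ) (h : Fin ℓ → ℕ) (N : ℕ) : ℝ :=
  (∑ n ∈ Finset.Ioc 0 N, ∏ j, f (n + h j)) / N

end Pool.Agent.Helper8.Dilation
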