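import Mathlib
import Pool.Agent.Helper8.DilationDefs

/-!
# Library for the barrier theorems on even-order Chowla averages

The key step (`slow`) constructs, for any signs `σ p`, a function `c : ℕ → {1, -1}` with
`c (n + 1) = c n` for almost all `n`, and `c (p n) = σ p * c n` for almost all `n`, for each prime `p`.
It is glued from the functions `(-1) ^ ⌊τ log n⌋`, where by Kronecker's theorem `τ log p` is close
to integers of prescribed parity for all small primes; two such functions with different `τ` are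
joined by a chain of intermediate functions, each close to the next in density.
-/

namespace Pool.Agent.Helper8.Dilation

open Finset Filter Topology

/-- Mean square of a trigonometric polynomial with distinct frequencies. -/
lemma mean_square {J : Type*} (s : Finset J) (a ω : J → ℝ)
    (hω : ∀ j ∈ s, ∀ j' ∈ s, ω j = ω j' → j = j') (B T0 : ℝ)
    (hB : ∀ t, T0 ≤ t →
      (∑ j ∈ s, a j * Real.cos (ω j * t)) ^ 2 + (∑ j ∈ s, a j * Real.sin (ω j * t)) ^ 2 ≤ B) :
    ∑ j ∈ s, a j ^ 2 ≤ B := by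
  classical
  set C : ℝ := ∑ j ∈ s, ∑ j' ∈ s, |a j * a j'| * (2 / |ω j - ω j'|) with hC
  have hexp : ∀ t : ℝ,
      (∑ j ∈ s, a j * Real.cos (ω j * t)) ^ 2 + (∑ j ∈ s, a j * Real.sin (ω j * t)) ^ 2
        = ∑ j ∈ s, ∑ j' ∈ s, (a j * a j') * Real.cos ((ω j - ω j') * t) := by
    intro t
    rw [sq, sq, Finset.sum_mul_sum, Finset.sum_mul_sum, ← Finset.sum_add_distrib]
    refine Finset.sum_congr rfl fun j _ => ?_
    rw [← Finset.sum_add_distrib]
    refine Finset.sum_congr rfl fun j' _ => ?_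
    rw [sub_mul, Real.cos_sub]; ring
  have hint : ∀ c T : ℝ, c ≠ 0 →
      |∫ t in T0..(T0 + T), Real.cos (c * t)| ≤ 2 / |c| := by
    intro c T hc
    rw [intervalIntegral.integral_comp_mul_left (fun x => Real.cos x) hc, integral_cos, smul_eq_mul,
      abs_mul, abs_inv]
    have h1 : |Real.sin (c * (T0 + T)) - Real.sin (c * T0)| ≤ 2 := by
      have h2 := Real.abs_sin_le_one (c * (T0 + T))
      have h3 := Real.abs_sin_le_one (c * T0)
      have := abs_sub (Real.sin (c * (T0 + T))) (Real.sin (c * T0))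
      linarith
    rw [div_eq_inv_mul]
    exact mul_le_mul_of_nonneg_left h1 (by positivity)
  have hmain : ∀ T : ℝ, 0 ≤ T → T * ∑ j ∈ s, a j ^ 2 - C ≤ T * B := by
    intro T hT
    have hup : ∫ t in T0..(T0 + T),
        ((∑ j ∈ s, a j * Real.cos (ω j * t)) ^ 2 + (∑ j ∈ s, a j * Real.sin (ω j * t)) ^ 2)
        ≤ ∫ t in T0..(T0 + T), B := by
      apply intervalIntegral.integral_mono_on (by linarith)
      · apply Continuous.intervalIntegrable
        fun_prop
      · exact intervalIntegrable_const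
      · intro t ht
        exact hB t ht.1
    rw [intervalIntegral.integral_const, smul_eq_mul] at hup
    have hsimp : T0 + T - T0 = T := by ring
    rw [hsimp] at hup
    refine le_trans ?_ hup
    simp_rw [hexp]
    rw [intervalIntegral.integral_finsetSum]
    · rw [hC, Finset.mul_sum, ← Finset.sum_sub_distrib]
      refine Finset.sum_le_sum fun j hj => ?_
      rw [intervalIntegral.integral_finsetSum]
      · have h0 : T * a j ^ 2 = ∑ j' ∈ s, (if j = j' then T * (a j * a j') else 0) := by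
          rw [Finset.sum_ite_eq s j (fun j' => T * (a j * a j')), if_pos hj]; ring
        rw [h0, ← Finset.sum_sub_distrib]
        refine Finset.sum_le_sum fun j' hj' => ?_
        rw [intervalIntegral.integral_const_mul]
        split_ifs with hjj
        · subst hjj
          simp
          linarith
        · have hne : ω j - ω j' ≠ 0 := by
            intro h
            exact hjj (hω j hj j' hj' (by linarith))
          have h1 := hint (ω j - ω j') T hne
          have h2 : |(a j * a j') * ∫ t in T0..(T0 + T), Real.cos ((ω j - ω j') * t)|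
              ≤ |a j * a j'| * (2 / |ω j - ω j'|) := by
            rw [abs_mul]
            exact mul_le_mul_of_nonneg_left h1 (abs_nonneg _)
          have h3 := (abs_le.mp h2).1
          linarith
      · intro j' _
        apply Continuous.intervalIntegrable
        fun_prop
    · intro j _
      apply Continuous.intervalIntegrable
      fun_prop
  by_contra hcon
  push Not at hcon
  set d := ∑ j ∈ s, a j ^ 2 - B with hd
  have hd0 : 0 < d := by linarith
  have hC0 : 0 ≤ C := by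
    rw [hC]
    exact Finset.sum_nonneg fun j _ => Finset.sum_nonneg fun j' _ => by positivity
  have h1 := hmain ((C + 1) / d) (by positivity)
  have h2 : (C + 1) / d * d = C + 1 := by field_simp
  have h3 : (C + 1) / d * ∑ j ∈ s, a j ^ 2 - (C + 1) / d * B = (C + 1) / d * d := by rw [hd]; ring
  linarith

/-- Kronecker's theorem in cosine form, with arbitrarily late times. -/
lemma kron_cos {ι : Type*} [Fintype ι] [DecidableEq ι] (L : ι → ℝ)
    (hL : ∀ j j' : ι → ℕ, ∑ p, (j p : ℝ) * L p = ∑ p, (j' p : ℝ) * L p → j = j')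
    (σ : ι → ℝ) (hσ : ∀ p, σ p = 1 ∨ σ p = -1) (κ : ℝ) (hκ : 0 < κ) (hκ1 : κ ≤ 1) (T0 : ℝ) :
    ∃ t, T0 ≤ t ∧ ∀ p, 1 - κ ≤ σ p * Real.cos (L p * t) := by
  classical
  by_contra hcon
  push Not at hcon
  set r := Fintype.card ι with hr
  -- the key inequality for every `k`
  have key : ∀ k : ℕ, (1 : ℝ) ≤ ((k : ℝ) + 1) ^ r * (1 - κ / 2) ^ k := by
    intro k
    set J : Finset (ι → ℕ) := Fintype.piFinset (fun _ => Finset.range (k + 1)) with hJ
    set a : (ι → ℕ) → ℝ := fun j => ∏ p, ((k.choose (j p) : ℝ) * σ p ^ (j p)) with ha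
    set ω : (ι → ℕ) → ℝ := fun j => ∑ p, (j p : ℝ) * L p with hω
    have hprod : ∀ t : ℝ, ∏ p, (1 + (σ p : ℂ) * Complex.exp ((L p * t : ℝ) * Complex.I)) ^ k
        = ∑ j ∈ J, (a j : ℂ) * Complex.exp ((ω j * t : ℝ) * Complex.I) := by
      intro t
      have h1 : ∀ p : ι, (1 + (σ p : ℂ) * Complex.exp ((L p * t : ℝ) * Complex.I)) ^ k
          = ∑ m ∈ Finset.range (k + 1), ((k.choose m : ℂ) * (σ p : ℂ) ^ m) *
              Complex.exp ((m * (L p * t) : ℝ) * Complex.I) := by
        intro p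
        rw [add_comm, add_pow]
        refine Finset.sum_congr rfl fun m _ => ?_
        rw [one_pow, mul_one, mul_pow, ← Complex.exp_nat_mul]
        have : ((m : ℂ) * (((L p * t : ℝ) : ℂ) * Complex.I))
            = ((m * (L p * t) : ℝ) : ℂ) * Complex.I := by push_cast; ring
        rw [this]; ring
      simp_rw [h1]
      rw [Finset.prod_univ_sum]
      refine Finset.sum_congr rfl fun j _ => ?_
      rw [Finset.prod_mul_distrib, ← Complex.exp_sum]
      congr 1
      · rw [ha]; push_cast; rfl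
      · congr 1
        rw [← Finset.sum_mul]
        congr 1
        rw [hω]
        push_cast
        rw [Finset.sum_mul]
        refine Finset.sum_congr rfl fun p _ => ?_
        ring
    have hre : ∀ (x : ℝ), (Complex.exp ((x : ℝ) * Complex.I)).re = Real.cos x := fun x =>
      Complex.exp_ofReal_mul_I_re x
    have him : ∀ (x : ℝ), (Complex.exp ((x : ℝ) * Complex.I)).im = Real.sin x := fun x =>
      Complex.exp_ofReal_mul_I_im x
    have hns : ∀ t : ℝ, (∑ j ∈ J, a j * Real.cos (ω j * t)) ^ 2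
        + (∑ j ∈ J, a j * Real.sin (ω j * t)) ^ 2
        = ∏ p, (2 + 2 * (σ p * Real.cos (L p * t))) ^ k := by
      intro t
      have h1 : Complex.normSq (∑ j ∈ J, (a j : ℂ) * Complex.exp ((ω j * t : ℝ) * Complex.I))
          = (∑ j ∈ J, a j * Real.cos (ω j * t)) ^ 2 + (∑ j ∈ J, a j * Real.sin (ω j * t)) ^ 2 := by
        rw [Complex.normSq_apply, Complex.re_sum, Complex.im_sum]
        simp_rw [Complex.re_ofReal_mul, Complex.im_ofReal_mul, hre, him]
        ring
      rw [← h1, ← hprod, map_prod]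
      refine Finset.prod_congr rfl fun p _ => ?_
      rw [map_pow]
      congr 1
      rw [Complex.normSq_apply]
      simp only [Complex.add_re, Complex.add_im, Complex.one_re, Complex.one_im,
        Complex.re_ofReal_mul, Complex.im_ofReal_mul, hre, him]
      have h2 : σ p ^ 2 = 1 := by rcases hσ p with h | h <;> rw [h] <;> norm_num
      have h3 := Real.sin_sq_add_cos_sq (L p * t)
      have : (1 + σ p * Real.cos (L p * t)) * (1 + σ p * Real.cos (L p * t))
          + (0 + σ p * Real.sin (L p * t)) * (0 + σ p * Real.sin (L p * t))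
          = 1 + 2 * (σ p * Real.cos (L p * t))
            + σ p ^ 2 * (Real.sin (L p * t) ^ 2 + Real.cos (L p * t) ^ 2) := by ring
      rw [this, h2, h3]; ring
    have hcos : ∀ t p, -1 ≤ σ p * Real.cos (L p * t) ∧ σ p * Real.cos (L p * t) ≤ 1 := by
      intro t p
      have h1 := Real.neg_one_le_cos (L p * t)
      have h2 := Real.cos_le_one (L p * t)
      rcases hσ p with h | h <;> rw [h] <;> constructor <;> linarith
    have hup : ∀ t, T0 ≤ t → ∏ p, (2 + 2 * (σ p * Real.cos (L p * t))) ^ k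
        ≤ (4 ^ r * (1 - κ / 2)) ^ k := by
      intro t ht
      obtain ⟨p0, hp0⟩ := hcon t ht
      rw [Finset.prod_pow]
      apply pow_le_pow_left₀
      · exact Finset.prod_nonneg fun p _ => by linarith [(hcos t p).1]
      · rw [← Finset.mul_prod_erase Finset.univ _ (Finset.mem_univ p0)]
        have h1 : ∏ p ∈ Finset.univ.erase p0, (2 + 2 * (σ p * Real.cos (L p * t)))
            ≤ 4 ^ (r - 1) := by
          calc ∏ p ∈ Finset.univ.erase p0, (2 + 2 * (σ p * Real.cos (L p * t)))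
              ≤ ∏ _p ∈ Finset.univ.erase p0, (4 : ℝ) :=
                Finset.prod_le_prod (fun p _ => by linarith [(hcos t p).1])
                  (fun p _ => by linarith [(hcos t p).2])
            _ = 4 ^ (r - 1) := by
                rw [Finset.prod_const, Finset.card_erase_of_mem (Finset.mem_univ p0),
                  Finset.card_univ]
        have h2 : 2 + 2 * (σ p0 * Real.cos (L p0 * t)) ≤ 4 * (1 - κ / 2) := by linarith
        have hr1 : 1 ≤ r := Fintype.card_pos_iff.mpr ⟨p0⟩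
        calc (2 + 2 * (σ p0 * Real.cos (L p0 * t))) *
              ∏ p ∈ Finset.univ.erase p0, (2 + 2 * (σ p * Real.cos (L p * t)))
            ≤ (4 * (1 - κ / 2)) * 4 ^ (r - 1) := by
              apply mul_le_mul h2 h1
              · exact Finset.prod_nonneg fun p _ => by linarith [(hcos t p).1]
              · linarith
          _ = 4 ^ r * (1 - κ / 2) := by
              obtain ⟨q, hq⟩ : ∃ q, r = q + 1 := ⟨r - 1, by omega⟩
              rw [hq]; simp only [Nat.add_sub_cancel, pow_succ]; ring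
    have hms := mean_square J a ω (fun j _ j' _ h => hL j j' h) ((4 ^ r * (1 - κ / 2)) ^ k) T0
      (fun t ht => by rw [hns t]; exact hup t ht)
    have hcs : (∑ j ∈ J, |a j|) ^ 2 ≤ J.card * ∑ j ∈ J, a j ^ 2 := by
      have := sq_sum_le_card_mul_sum_sq (s := J) (f := fun j => |a j|)
      simpa [sq_abs] using this
    have hcard : (J.card : ℝ) = ((k : ℝ) + 1) ^ r := by
      rw [hJ, Fintype.card_piFinset]
      simp [hr]
    have hsum : ∑ j ∈ J, |a j| = (2 ^ k) ^ r := by
      have h1 : ∀ j : ι → ℕ, |a j| = ∏ p, (k.choose (j p) : ℝ) := by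
        intro j
        rw [ha]
        simp only
        rw [Finset.abs_prod]
        refine Finset.prod_congr rfl fun p _ => ?_
        rw [abs_mul, abs_pow]
        have : |σ p| = 1 := by rcases hσ p with h | h <;> rw [h] <;> simp
        rw [this, one_pow, mul_one, abs_of_nonneg (by positivity)]
      simp_rw [h1]
      rw [hJ, ← Finset.prod_univ_sum (fun _ => Finset.range (k + 1)) (fun _ m => (k.choose m : ℝ))]
      have h2 : ∑ m ∈ Finset.range (k + 1), (k.choose m : ℝ) = 2 ^ k := by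
        exact_mod_cast Nat.sum_range_choose k
      simp [h2, hr]
    rw [hsum, hcard] at hcs
    have h4 : (((2 : ℝ) ^ k) ^ r) ^ 2 = (4 ^ r) ^ k := by
      rw [← pow_mul, ← pow_mul, ← pow_mul, show (4 : ℝ) = 2 ^ 2 by norm_num, ← pow_mul]
      congr 1; ring
    rw [h4] at hcs
    have h5 : ((4 : ℝ) ^ r) ^ k ≤ ((k : ℝ) + 1) ^ r * ((4 ^ r) ^ k * (1 - κ / 2) ^ k) := by
      refine le_trans hcs ?_
      apply mul_le_mul_of_nonneg_left _ (by positivity)
      rw [← mul_pow]; exact hms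
    have h6 : (0 : ℝ) < ((4 : ℝ) ^ r) ^ k := by positivity
    have h7 : ((4 : ℝ) ^ r) ^ k * 1 ≤ ((4 : ℝ) ^ r) ^ k * (((k : ℝ) + 1) ^ r * (1 - κ / 2) ^ k) := by
      rw [mul_one]; refine le_trans h5 (le_of_eq ?_); ring
    exact le_of_mul_le_mul_left h7 h6
  have hc : |1 - κ / 2| < 1 := by rw [abs_lt]; constructor <;> linarith
  have hlim := tendsto_pow_const_mul_const_pow_of_abs_lt_one r hc
  have hlim2 := (tendsto_add_atTop_iff_nat 1).mpr hlim
  have hev := hlim2.eventually (gt_mem_nhds (show (0 : ℝ) < 1 / 2 by norm_num))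
  obtain ⟨k, hk⟩ := hev.exists
  have hk1 := key k
  push_cast at hk
  have h8 : ((k : ℝ) + 1) ^ r * (1 - κ / 2) ^ (k + 1)
      = (((k : ℝ) + 1) ^ r * (1 - κ / 2) ^ k) * (1 - κ / 2) := by ring
  rw [h8] at hk
  have h9 : (1 : ℝ) * (1 / 2) ≤ (((k : ℝ) + 1) ^ r * (1 - κ / 2) ^ k) * (1 - κ / 2) := by
    apply mul_le_mul hk1 (by linarith) (by norm_num)
    linarith
  linarith

/-- From closeness of cosines to closeness to integers of prescribed parity. -/
lemma close_of_cos (x σ δ : ℝ) (hσ : σ = 1 ∨ σ = -1) (hδ : 0 < δ)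
    (h : 1 - 2 * δ ^ 2 ≤ σ * Real.cos (Real.pi * x)) :
    ∃ m : ℤ, |x - m| ≤ δ ∧ ((-1 : ℝ)) ^ m = σ := by
  have hpi := Real.pi_pos
  have main : ∀ y : ℝ, 1 - 2 * δ ^ 2 ≤ Real.cos (Real.pi * y) →
      ∃ m : ℤ, |y - 2 * m| ≤ δ := by
    intro y hy
    refine ⟨round (y / 2), ?_⟩
    have h1 := abs_sub_round (y / 2)
    set z := y - 2 * (round (y / 2) : ℝ) with hz
    have hz1 : |z| ≤ 1 := by
      have : z = 2 * (y / 2 - round (y / 2)) := by rw [hz]; ring
      rw [this, abs_mul]; norm_num; linarith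
    have h2 : Real.cos (Real.pi * y) = Real.cos (Real.pi * z) := by
      have : Real.pi * z = Real.pi * y - (round (y / 2) : ℤ) * (2 * Real.pi) := by rw [hz]; ring
      rw [this, Real.cos_sub_int_mul_two_pi]
    have h3 : |Real.pi * z| ≤ Real.pi := by
      rw [abs_mul, abs_of_pos hpi]; nlinarith
    have h4 := Real.cos_le_one_sub_mul_cos_sq h3
    rw [h2] at hy
    have h5 : 2 / Real.pi ^ 2 * (Real.pi * z) ^ 2 = 2 * z ^ 2 := by field_simp
    rw [h5] at h4
    have h6 : z ^ 2 ≤ δ ^ 2 := by linarith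
    exact abs_le_of_sq_le_sq h6 hδ.le
  rcases hσ with hσ | hσ
  · subst hσ
    rw [one_mul] at h
    obtain ⟨m, hm⟩ := main x h
    refine ⟨2 * m, ?_, ?_⟩
    · push_cast; exact hm
    · rw [zpow_mul]; norm_num
  · subst hσ
    have h1 : Real.cos (Real.pi * (x - 1)) = - Real.cos (Real.pi * x) := by
      have : Real.pi * (x - 1) = Real.pi * x - Real.pi := by ring
      rw [this, Real.cos_sub_pi]
    obtain ⟨m, hm⟩ := main (x - 1) (by rw [h1]; linarith)
    refine ⟨2 * m + 1, ?_, ?_⟩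
    · push_cast
      have : x - (2 * (m : ℝ) + 1) = x - 1 - 2 * m := by ring
      rw [this]; exact hm
    · rw [zpow_add₀ (by norm_num), zpow_mul]; norm_num

/-- Logarithms of primes are linearly independent over the naturals. -/
lemma log_indep (Q : Finset ℕ) (hQ : ∀ p ∈ Q, p.Prime) (j j' : Q → ℕ)
    (h : ∑ p : Q, (j p : ℝ) * Real.log (p : ℕ) = ∑ p : Q, (j' p : ℝ) * Real.log (p : ℕ)) :
    j = j' := by
  classical
  have hpos : ∀ p : Q, (0 : ℝ) < ((p : ℕ) : ℝ) := fun p => by exact_mod_cast (hQ p p.2).pos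
  have e : ∀ i : Q → ℕ, ∑ p : Q, (i p : ℝ) * Real.log (p : ℕ)
      = Real.log ((∏ p : Q, (p : ℕ) ^ i p : ℕ) : ℝ) := by
    intro i
    push_cast
    rw [Real.log_prod (fun p _ => (pow_pos (hpos p) _).ne')]
    refine Finset.sum_congr rfl fun p _ => ?_
    rw [Real.log_pow]
  have hpos2 : ∀ i : Q → ℕ, (0 : ℝ) < ((∏ p : Q, (p : ℕ) ^ i p : ℕ) : ℝ) := by
    intro i
    push_cast
    exact Finset.prod_pos fun p _ => pow_pos (hpos p) _
  rw [e, e] at h
  have h2 := Real.log_injOn_pos (hpos2 j) (hpos2 j') h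
  have h3 : ∏ p : Q, (p : ℕ) ^ j p = ∏ p : Q, (p : ℕ) ^ j' p := by exact_mod_cast h2
  have hf : ∀ i : Q → ℕ, ∀ q : Q, (∏ p : Q, (p : ℕ) ^ i p).factorization q = i q := by
    intro i q
    rw [Nat.factorization_prod_apply
      (fun (p : Q) _ => pow_ne_zero (i p) (hQ (p : ℕ) p.2).ne_zero)]
    rw [Finset.sum_eq_single q]
    · rw [(hQ q q.2).factorization_pow]; simp
    · intro b _ hb
      rw [(hQ b b.2).factorization_pow, Finsupp.single_apply, if_neg]
      intro h; exact hb (Subtype.ext h)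
    · intro h; exact absurd (Finset.mem_univ q) h
  funext q
  rw [← hf j q, ← hf j' q, h3]

/-- Late simultaneous approximation of `τ log p` by integers of prescribed parities. -/
lemma kron (Q : Finset ℕ) (hQ : ∀ p ∈ Q, p.Prime) (σ : ℕ → ℝ) (hσ : ∀ p, σ p = 1 ∨ σ p = -1)
    (δ : ℝ) (hδ : 0 < δ) (T0 : ℝ) :
    ∃ τ : ℝ, T0 ≤ τ ∧ ∃ m : ℕ → ℤ, ∀ p ∈ Q, |τ * Real.log p - m p| ≤ δ ∧ (-1 : ℝ) ^ (m p) = σ p := by
  classical
  have hpi := Real.pi_pos
  set δ' := min δ (1 / 2) with hδ'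
  have hδ0 : 0 < δ' := lt_min hδ (by norm_num)
  have hδ1 : δ' ≤ 1 / 2 := min_le_right _ _
  obtain ⟨t, ht, h⟩ := kron_cos (ι := Q) (fun p : Q => Real.log (p : ℕ)) (log_indep Q hQ)
    (fun p : Q => σ p) (fun p => hσ p) (2 * δ' ^ 2) (by positivity) (by nlinarith) (T0 * Real.pi)
  refine ⟨t / Real.pi, by rw [le_div_iff₀ hpi]; exact ht, ?_⟩
  have h1 : ∀ p ∈ Q, ∃ m : ℤ, |t / Real.pi * Real.log p - m| ≤ δ' ∧ (-1 : ℝ) ^ m = σ p := by
    intro p hp
    apply close_of_cos _ _ _ (hσ p) hδ0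
    have := h ⟨p, hp⟩
    have e : Real.pi * (t / Real.pi * Real.log p) = Real.log p * t := by field_simp
    rw [e]; exact this
  choose! m hm using h1
  exact ⟨m, fun p hp => ⟨(hm p hp).1.trans (min_le_left _ _), (hm p hp).2⟩⟩

lemma card_Icc_le (a b : ℝ) (hab : a ≤ b) (ha : 0 ≤ a) :
    ((Finset.Icc ⌈a⌉₊ ⌊b⌋₊).card : ℝ) ≤ b - a + 1 := by
  rw [Nat.card_Icc]
  rcases le_total (⌈a⌉₊) (⌊b⌋₊ + 1) with h | h
  · rw [Nat.cast_sub h]
    push_cast
    have h1 := Nat.floor_le (ha.trans hab)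
    have h2 := Nat.le_ceil a
    linarith
  · rw [Nat.sub_eq_zero_of_le h]; simp; linarith

/-- If `x` is far from all integers, rounding down commutes with an approximate integer shift. -/
lemma floor_shift (x y η : ℝ) (M : ℤ) (hx : ∀ k : ℤ, η < |x - k|) (hxy : |y - x - M| ≤ η) :
    ⌊y⌋ = ⌊x⌋ + M := by
  have h1 := hx ⌊x⌋
  have h2 := hx (⌊x⌋ + 1)
  have h3 := Int.floor_le x
  have h4 := Int.lt_floor_add_one x
  rw [abs_of_nonneg (by linarith)] at h1
  push_cast at h2
  rw [abs_of_neg (by linarith)] at h2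
  rw [abs_le] at hxy
  rw [Int.floor_eq_iff]
  push_cast
  constructor <;> linarith

/-- the sign `(-1) ^ ⌊τ log n⌋` -/
noncomputable def sgn (τ : ℝ) (n : ℕ) : ℝ := (-1 : ℝ) ^ ⌊τ * Real.log n⌋

lemma sgn_pm (τ : ℝ) (n : ℕ) : sgn τ n = 1 ∨ sgn τ n = -1 := by
  unfold sgn
  rcases Int.even_or_odd ⌊τ * Real.log n⌋ with h | h
  · left; exact h.neg_one_zpow
  · right; exact h.neg_one_zpow

lemma CompMult.one {F : ℕ → ℝ} (hF : CompMult F) : F 1 = 1 := by
  have h1 := hF.2 1 1 le_rfl le_rfl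
  rcases hF.1 1 with h | h
  · exact h
  · rw [mul_one, h] at h1; norm_num at h1

lemma CompMult.pow {F : ℕ → ℝ} (hF : CompMult F) (p : ℕ) (hp : 1 ≤ p) (k : ℕ) : F (p ^ k) = F p ^ k := by
  induction k with
  | zero => simp [hF.one]
  | succ k ih => rw [pow_succ, pow_succ, hF.2 _ _ (Nat.one_le_pow _ _ hp) hp, ih]

lemma CompMult.prod {F : ℕ → ℝ} (hF : CompMult F) (Q : Finset ℕ) (hQ : ∀ p ∈ Q, p.Prime) (v : ℕ → ℕ) :
    F (∏ p ∈ Q, p ^ v p) = ∏ p ∈ Q, F p ^ v p := by
  classical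
  induction Q using Finset.induction_on with
  | empty => simp [hF.one]
  | insert a s ha ih =>
    rw [Finset.prod_insert ha, Finset.prod_insert ha, hF.2, ih (fun p hp => hQ p (mem_insert_of_mem hp)),
      hF.pow _ (hQ a (mem_insert_self a s)).one_le]
    · exact Nat.one_le_pow _ _ (hQ a (mem_insert_self a s)).pos
    · apply Finset.prod_pos fun p hp => pow_pos (hQ p (mem_insert_of_mem hp)).pos _

open scoped Classical in
/-- The part of `n` made of primes outside `P`. -/
noncomputable def rough (P : Set ℕ) (n : ℕ) : ℕ :=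
  n.factorization.prod (fun p e => if p ∈ P then 1 else p ^ e)

open scoped Classical in
/-- The number of prime factors of `n` in `P`, with multiplicity. -/
noncomputable def expo (P : Set ℕ) (n : ℕ) : ℕ :=
  n.factorization.sum (fun p e => if p ∈ P then e else 0)

lemma rough_mul (P : Set ℕ) (p : ℕ) (hp : p ∈ P) (hpp : p.Prime) (n : ℕ) (hn : 1 ≤ n) :
    rough P (p * n) = rough P n := by
  unfold rough
  rw [Nat.factorization_mul hpp.ne_zero (by omega), Finsupp.prod_add_index']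
  · rw [hpp.factorization, Finsupp.prod_single_index] <;> simp [hp]
  · intro a; split_ifs <;> simp
  · intro a b c; split_ifs <;> simp [pow_add]

lemma expo_mul (P : Set ℕ) (p : ℕ) (hp : p ∈ P) (hpp : p.Prime) (n : ℕ) (hn : 1 ≤ n) :
    expo P (p * n) = expo P n + 1 := by
  unfold expo
  rw [Nat.factorization_mul hpp.ne_zero (by omega), Finsupp.sum_add_index']
  · rw [hpp.factorization, Finsupp.sum_single_index] <;> simp [hp, add_comm]
  · intro a; split_ifs <;> simp
  · intro a b c; split_ifs <;> simp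

lemma rough_pos (P : Set ℕ) (n : ℕ) : 1 ≤ rough P n := by
  unfold rough
  apply Nat.one_le_iff_ne_zero.mpr
  rw [Finsupp.prod, Finset.prod_ne_zero_iff]
  intro p hp
  have : p ≠ 0 := by
    have := Nat.prime_of_mem_primeFactors (by simpa using hp)
    exact this.ne_zero
  split_ifs
  · exact one_ne_zero
  · exact pow_ne_zero _ this

lemma decomp (P : Set ℕ) (Q : Finset ℕ) (hQP : ∀ p ∈ Q, p ∈ P) (n : ℕ)
    (hn : 1 ≤ n) (h : ∀ p ∈ P, p ∉ Q → ¬ p ∣ n) :
    n = (∏ p ∈ Q, p ^ n.factorization p) * rough P n := by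
  classical
  have h1 := Nat.prod_factorization_pow_eq_self (n := n) (by omega)
  have h2 : rough P n = ∏ p ∈ n.factorization.support, if p ∈ P then 1 else p ^ n.factorization p := rfl
  have h3 : (∏ p ∈ Q, p ^ n.factorization p)
      = ∏ p ∈ n.factorization.support, if p ∈ P then p ^ n.factorization p else 1 := by
    rw [← Finset.prod_filter]
    symm
    apply Finset.prod_subset
    · intro p hp
      rw [Finset.mem_filter] at hp
      by_contra hpQ
      have : p ∣ n := Nat.dvd_of_mem_primeFactors (by simpa using hp.1)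
      exact h p hp.2 hpQ this
    · intro p hpQ hp
      rw [Finset.mem_filter, not_and] at hp
      have : p ∉ n.factorization.support := fun h' => hp h' (hQP p hpQ)
      rw [Finsupp.mem_support_iff, not_not] at this
      rw [this, pow_zero]
  rw [h2, h3, ← Finset.prod_mul_distrib]
  conv_lhs => rw [← h1]
  rw [Finsupp.prod]
  refine Finset.prod_congr rfl fun p _ => ?_
  split_ifs <;> simp

lemma decomp_expo (P : Set ℕ) (Q : Finset ℕ) (hQP : ∀ p ∈ Q, p ∈ P) (n : ℕ)
    (h : ∀ p ∈ P, p ∉ Q → ¬ p ∣ n) :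
    expo P n = ∑ p ∈ Q, n.factorization p := by
  classical
  have h2 : expo P n = ∑ p ∈ n.factorization.support, if p ∈ P then n.factorization p else 0 := rfl
  rw [h2, ← Finset.sum_filter]
  apply Finset.sum_subset
  · intro p hp
    rw [Finset.mem_filter] at hp
    by_contra hpQ
    have : p ∣ n := Nat.dvd_of_mem_primeFactors (by simpa using hp.1)
    exact h p hp.2 hpQ this
  · intro p hpQ hp
    rw [Finset.mem_filter, not_and] at hp
    have : p ∉ n.factorization.support := fun h' => hp h' (hQP p hpQ)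
    rw [Finsupp.mem_support_iff, not_not] at this
    exact this

/-- Few multiples. -/
lemma count_dvd (R : Finset ℕ) (g : ℕ → ℕ) (N : ℕ) :
    (((Finset.Ioc 0 N).filter (fun n => ∃ d ∈ R, g d ∣ n)).card : ℝ) ≤ N * ∑ d ∈ R, (1 : ℝ) / g d := by
  classical
  have hsub : (Finset.Ioc 0 N).filter (fun n => ∃ d ∈ R, g d ∣ n)
      ⊆ R.biUnion (fun d => (Finset.Ioc 0 N).filter (fun n => g d ∣ n)) := by
    intro n hn
    rw [Finset.mem_filter] at hn
    obtain ⟨h1, d, hd, h2⟩ := hn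
    rw [Finset.mem_biUnion]
    exact ⟨d, hd, Finset.mem_filter.mpr ⟨h1, h2⟩⟩
  have h1 : (((Finset.Ioc 0 N).filter (fun n => ∃ d ∈ R, g d ∣ n)).card : ℝ)
      ≤ ∑ d ∈ R, (((Finset.Ioc 0 N).filter (fun n => g d ∣ n)).card : ℝ) := by
    exact_mod_cast (Finset.card_le_card hsub).trans Finset.card_biUnion_le
  refine h1.trans ?_
  rw [Finset.mul_sum]
  refine Finset.sum_le_sum fun d _ => ?_
  rw [Nat.Ioc_filter_dvd_card_eq_div, mul_one_div]
  exact Nat.cast_div_le

lemma log_small (a b c : ℝ) (hc : 0 < c) : ∀ᶠ N : ℕ in atTop, a * Real.log N + b ≤ c * N := by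
  have h1 : (fun x : ℝ => a * Real.log x + b) =o[atTop] (fun x : ℝ => x) := by
    apply Asymptotics.IsLittleO.add
    · exact Real.isLittleO_log_id_atTop.const_mul_left a
    · exact Asymptotics.isLittleO_const_id_atTop b
  have h2 := (h1.comp_tendsto tendsto_natCast_atTop_atTop).bound hc
  filter_upwards [h2] with N hN
  simp only [Function.comp, Real.norm_eq_abs, Nat.abs_cast] at hN
  exact (le_abs_self _).trans hN

/-- Finite core of a sparse set of primes. -/
lemma core (P : Set ℕ) (hs : Summable (P.indicator (fun p : ℕ => (1 : ℝ) / p))) (ε : ℝ) (hε : 0 < ε) :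
    ∃ Q : Finset ℕ, (∀ p ∈ Q, p ∈ P) ∧
      ∀ R : Finset ℕ, (∀ p ∈ R, p ∈ P ∧ p ∉ Q) → ∑ p ∈ R, (1 : ℝ) / p ≤ ε := by
  classical
  obtain ⟨s, hs⟩ := summable_iff_vanishing_norm.mp hs ε hε
  refine ⟨s.filter (· ∈ P), fun p hp => (Finset.mem_filter.mp hp).2, fun R hR => ?_⟩
  have hdis : Disjoint R s := by
    rw [Finset.disjoint_left]
    intro p hp hps
    exact (hR p hp).2 (Finset.mem_filter.mpr ⟨hps, (hR p hp).1⟩)
  have h1 := hs R hdis
  have h2 : ∑ p ∈ R, P.indicator (fun p : ℕ => (1 : ℝ) / p) p = ∑ p ∈ R, (1 : ℝ) / p :=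
    Finset.sum_congr rfl fun p hp => Set.indicator_of_mem (hR p hp).1 _
  rw [h2] at h1
  exact (le_abs_self _).trans h1.le

/-- number of `1 ≤ n ≤ N` in `B` -/
noncomputable def cnt (B : Set ℕ) (N : ℕ) : ℝ := ((B ∩ Set.Ioc 0 N).ncard : ℝ)

/-- natural density zero, in `ε` form -/
def DZ (B : Set ℕ) : Prop := ∀ ε : ℝ, 0 < ε → ∀ᶠ N : ℕ in atTop, cnt B N ≤ ε * N

lemma fin_Ioc (B : Set ℕ) (N : ℕ) : (B ∩ Set.Ioc 0 N).Finite :=
  (Set.finite_Ioc 0 N).subset Set.inter_subset_right

lemma cnt_nonneg (B : Set ℕ) (N : ℕ) : 0 ≤ cnt B N := by unfold cnt; positivity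

lemma cnt_mono' {A B : Set ℕ} {N : ℕ} (h : ∀ n, 0 < n → n ≤ N → n ∈ A → n ∈ B) :
    cnt A N ≤ cnt B N := by
  unfold cnt
  have : (A ∩ Set.Ioc 0 N).ncard ≤ (B ∩ Set.Ioc 0 N).ncard := by
    apply Set.ncard_le_ncard _ (fin_Ioc B N)
    rintro n ⟨hn, hn2⟩
    exact ⟨h n hn2.1 hn2.2 hn, hn2⟩
  exact_mod_cast this

lemma cnt_mono {A B : Set ℕ} (h : A ⊆ B) (N : ℕ) : cnt A N ≤ cnt B N :=
  cnt_mono' fun _ _ _ hn => h hn

lemma cnt_union (A B : Set ℕ) (N : ℕ) : cnt (A ∪ B) N ≤ cnt A N + cnt B N := by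
  unfold cnt
  rw [Set.union_inter_distrib_right]
  exact_mod_cast Set.ncard_union_le _ _

lemma cnt_le (B : Set ℕ) (N : ℕ) : cnt B N ≤ N := by
  unfold cnt
  have h : (B ∩ Set.Ioc 0 N).ncard ≤ (Set.Ioc 0 N).ncard :=
    Set.ncard_le_ncard Set.inter_subset_right (Set.finite_Ioc 0 N)
  have h2 : (Set.Ioc 0 N).ncard = N := by
    rw [← Finset.coe_Ioc, Set.ncard_coe_finset]; simp
  rw [h2] at h
  exact_mod_cast h

lemma cnt_inj {A B : Set ℕ} {N M : ℕ} (g : ℕ → ℕ) (hg : ∀ n ∈ A, 0 < n → n ≤ N → g n ∈ B ∧ 0 < g n ∧ g n ≤ M)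
    (hinj : ∀ a b, g a = g b → a = b) : cnt A N ≤ cnt B M := by
  unfold cnt
  have : (A ∩ Set.Ioc 0 N).ncard ≤ (B ∩ Set.Ioc 0 M).ncard := by
    apply Set.ncard_le_ncard_of_injOn g
    · rintro n ⟨hn, hn2⟩
      have := hg n hn hn2.1 hn2.2
      exact ⟨this.1, this.2⟩
    · intro a _ b _ hab; exact hinj a b hab
  exact_mod_cast this

lemma cnt_tail (A : Set ℕ) (N M : ℕ) : cnt A N ≤ cnt (A ∩ {n | M ≤ n}) N + M := by
  have h1 : cnt A N ≤ cnt ((A ∩ {n | M ≤ n}) ∪ {n | n < M}) N := by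
    apply cnt_mono
    intro n hn
    by_cases h : n < M
    · exact Or.inr h
    · exact Or.inl ⟨hn, not_lt.mp h⟩
  refine (h1.trans (cnt_union _ _ _)).trans ?_
  have h2 : cnt {n | n < M} N ≤ M := by
    unfold cnt
    have : ({n | n < M} ∩ Set.Ioc 0 N).ncard ≤ (Set.Ioc 0 M).ncard := by
      apply Set.ncard_le_ncard _ (Set.finite_Ioc 0 M)
      rintro n ⟨hn, hn2⟩
      exact ⟨hn2.1, le_of_lt hn⟩
    have h3 : (Set.Ioc 0 M).ncard = M := by
      rw [← Finset.coe_Ioc, Set.ncard_coe_finset]; simp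
    rw [h3] at this
    exact_mod_cast this
  linarith

lemma DZ.mono {A B : Set ℕ} (hB : DZ B) (h : A ⊆ B) : DZ A := by
  intro ε hε
  filter_upwards [hB ε hε] with N hN
  exact (cnt_mono h N).trans hN

lemma DZ.union {A B : Set ℕ} (hA : DZ A) (hB : DZ B) : DZ (A ∪ B) := by
  intro ε hε
  filter_upwards [hA (ε / 2) (by positivity), hB (ε / 2) (by positivity)] with N h1 h2
  have := cnt_union A B N
  linarith

lemma DZ.empty : DZ ∅ := by
  intro ε hε
  filter_upwards with N
  simp [cnt]; positivity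

lemma DZ.iUnion {ι : Type*} (s : Finset ι) (A : ι → Set ℕ) (h : ∀ i ∈ s, DZ (A i)) :
    DZ {n | ∃ i ∈ s, n ∈ A i} := by
  classical
  induction s using Finset.induction_on with
  | empty => simpa using DZ.empty
  | insert a s ha ih =>
    have h1 := (h a (mem_insert_self a s)).union (ih fun i hi => h i (mem_insert_of_mem hi))
    refine h1.mono ?_
    rintro n ⟨i, hi, hn⟩
    rcases Finset.mem_insert.mp hi with rfl | hi
    · exact Or.inl hn
    · exact Or.inr ⟨i, hi, hn⟩

lemma DZ.preimage_mul {B : Set ℕ} (hB : DZ B) (p : ℕ) (hp : 1 ≤ p) : DZ {n | p * n ∈ B} := by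
  intro ε hε
  have hp0 : (0 : ℝ) < p := by exact_mod_cast hp
  have h1 := (tendsto_id.const_mul_atTop' (r := p) (by omega) : Tendsto (fun N : ℕ => p * N) atTop atTop).eventually
    (hB (ε / p) (by positivity))
  filter_upwards [h1] with N hN
  have h2 : cnt {n | p * n ∈ B} N ≤ cnt B (p * N) := by
    apply cnt_inj (fun n => p * n)
    · intro n hn hn0 hnN
      exact ⟨hn, Nat.mul_pos (by omega) hn0, Nat.mul_le_mul_left p hnN⟩
    · intro a b hab
      exact Nat.eq_of_mul_eq_mul_left (by omega) hab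
  refine h2.trans (hN.trans (le_of_eq ?_))
  push_cast; field_simp

lemma DZ.preimage_add {B : Set ℕ} (hB : DZ B) (h : ℕ) : DZ {n | n + h ∈ B} := by
  intro ε hε
  have h1 := (tendsto_add_atTop_nat h).eventually (hB (ε / 2) (by positivity))
  filter_upwards [h1, eventually_ge_atTop h] with N hN hNh
  have h2 : cnt {n | n + h ∈ B} N ≤ cnt B (N + h) := by
    apply cnt_inj (fun n => n + h)
    · intro n hn hn0 hnN
      exact ⟨hn, by show 0 < n + h; omega, by show n + h ≤ N + h; omega⟩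
    · intro a b hab; omega
  have h3 : (h : ℝ) ≤ N := by exact_mod_cast hNh
  refine h2.trans (hN.trans ?_)
  push_cast
  nlinarith

lemma DZ.image_mul {B : Set ℕ} (hB : DZ B) (p : ℕ) (hp : 1 ≤ p) : DZ {n | ∃ u ∈ B, n = p * u} := by
  intro ε hε
  filter_upwards [hB ε hε] with N hN
  refine le_trans ?_ hN
  unfold cnt
  have : ({n | ∃ u ∈ B, n = p * u} ∩ Set.Ioc 0 N).ncard ≤ (B ∩ Set.Ioc 0 N).ncard := by
    apply Set.ncard_le_ncard_of_injOn (fun n => n / p)
    · rintro n ⟨⟨u, hu, rfl⟩, hn⟩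
      have : p * u / p = u := Nat.mul_div_cancel_left u (by omega)
      show p * u / p ∈ _
      rw [this]
      refine ⟨hu, ?_, ?_⟩
      · rcases Nat.eq_zero_or_pos u with h | h
        · subst h; simp at hn
        · exact h
      · exact (Nat.le_mul_of_pos_left u (by omega)).trans hn.2
    · rintro a ⟨⟨u, hu, rfl⟩, _⟩ b ⟨⟨v, hv, rfl⟩, _⟩ hab
      simp only at hab
      rw [Nat.mul_div_cancel_left u (by omega), Nat.mul_div_cancel_left v (by omega)] at hab
      rw [hab]
  exact_mod_cast this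

/-- Bounded functions that agree off a set of density zero have the same averages. -/
lemma DZ.avg_close {g₁ g₂ : ℕ → ℝ} (h1 : ∀ n, |g₁ n| ≤ 1) (h2 : ∀ n, |g₂ n| ≤ 1)
    (h : DZ {n | g₁ n ≠ g₂ n}) (ε : ℝ) (hε : 0 < ε) :
    ∀ᶠ N : ℕ in atTop, |∑ n ∈ Ioc 0 N, g₁ n - ∑ n ∈ Ioc 0 N, g₂ n| ≤ ε * N := by
  classical
  filter_upwards [h (ε / 2) (by positivity)] with N hN
  rw [← Finset.sum_sub_distrib]
  refine (Finset.abs_sum_le_sum_abs _ _).trans ?_
  have hpt : ∀ n ∈ Ioc 0 N, |g₁ n - g₂ n| ≤ if g₁ n ≠ g₂ n then 2 else 0 := by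
    intro n _
    split_ifs with hne
    · refine (abs_sub _ _).trans ?_
      linarith [h1 n, h2 n]
    · push Not at hne
      rw [hne]; simp
  refine (Finset.sum_le_sum hpt).trans ?_
  rw [← Finset.sum_filter, Finset.sum_const, nsmul_eq_mul]
  have : (((Ioc 0 N).filter (fun n => g₁ n ≠ g₂ n)).card : ℝ) = cnt {n | g₁ n ≠ g₂ n} N := by
    unfold cnt
    rw [← Set.ncard_coe_finset]
    congr 2
    ext n
    simp [and_comm]
  rw [this]
  linarith

/-- `n` such that `τ log n` is within `η` of `α + ℤ` -/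
def Nr (τ α η : ℝ) : Set ℕ := {n | ∃ k : ℤ, |τ * Real.log n - α - k| ≤ η}

lemma cnt_Nr (τ α η : ℝ) (hτ : 1 ≤ τ) (hη0 : 0 < η) (hη : η ≤ 1 / 2) (N : ℕ) (hN : 1 ≤ N) :
    cnt (Nr τ α η) N ≤ 63 * η * N + (τ * Real.log N + 3) := by
  classical
  have hτ0 : 0 < τ := by linarith
  have hN0 : (1 : ℝ) ≤ N := by exact_mod_cast hN
  have hlogN : 0 ≤ Real.log N := Real.log_nonneg hN0
  set β := Int.fract α with hβ
  have hβ0 : 0 ≤ β := Int.fract_nonneg α
  have hβ1 : β < 1 := Int.fract_lt_one α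
  set K : ℕ := ⌊τ * Real.log N + 2⌋₊ with hK
  have hKle : (K : ℝ) ≤ τ * Real.log N + 2 := Nat.floor_le (by positivity)
  set lo : ℕ → ℝ := fun k => Real.exp ((k - 1 + β - η) / τ) with hlo
  set hi : ℕ → ℝ := fun k => Real.exp ((k - 1 + β + η) / τ) with hhi
  have hsub : Nr τ α η ∩ Set.Ioc 0 N
      ⊆ ((Finset.range (K + 1)).biUnion (fun k => Finset.Icc ⌈lo k⌉₊ ⌊hi k⌋₊) : Finset ℕ) := by
    rintro n ⟨⟨k, hk⟩, hn0, hnN⟩
    have hn1 : (1 : ℝ) ≤ n := by exact_mod_cast hn0
    have hnN' : (n : ℝ) ≤ N := by exact_mod_cast hnN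
    have hlog : 0 ≤ Real.log n := Real.log_nonneg hn1
    have hlogle : Real.log n ≤ Real.log N := Real.log_le_log (by linarith) hnN'
    have hα : α = ⌊α⌋ + β := (Int.floor_add_fract α).symm
    rw [hα, abs_le] at hk
    have hkk0 : 0 ≤ k + ⌊α⌋ + 1 := by
      have h1 : -(1 : ℝ) < ((k + ⌊α⌋ + 1 : ℤ) : ℝ) := by
        push_cast
        have : 0 ≤ τ * Real.log n := by positivity
        linarith
      have : (-1 : ℤ) < k + ⌊α⌋ + 1 := by exact_mod_cast h1
      omega
    obtain ⟨k', hk'⟩ := Int.eq_ofNat_of_zero_le hkk0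
    have hkk : (k' : ℝ) = (k : ℝ) + ⌊α⌋ + 1 := by
      have : ((k' : ℤ) : ℝ) = ((k + ⌊α⌋ + 1 : ℤ) : ℝ) := by rw [hk']
      push_cast at this
      exact this
    rw [Finset.mem_coe, Finset.mem_biUnion]
    refine ⟨k', ?_, ?_⟩
    · rw [Finset.mem_range, Nat.lt_succ_iff]
      apply Nat.le_floor
      have : τ * Real.log n ≤ τ * Real.log N := mul_le_mul_of_nonneg_left hlogle hτ0.le
      linarith
    · rw [Finset.mem_Icc]
      have hexp : Real.exp (Real.log n) = n := Real.exp_log (by linarith)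
      constructor
      · apply Nat.ceil_le.mpr
        rw [← hexp, hlo]
        apply Real.exp_le_exp.mpr
        rw [div_le_iff₀ hτ0]; linarith
      · apply Nat.le_floor
        rw [← hexp, hhi]
        apply Real.exp_le_exp.mpr
        rw [le_div_iff₀ hτ0]; linarith
  have h1 : cnt (Nr τ α η) N
      ≤ ∑ k ∈ Finset.range (K + 1), ((Finset.Icc ⌈lo k⌉₊ ⌊hi k⌋₊).card : ℝ) := by
    unfold cnt
    have h0 := Set.ncard_le_ncard hsub (Finset.finite_toSet _)
    rw [Set.ncard_coe_finset] at h0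
    have := h0.trans Finset.card_biUnion_le
    exact_mod_cast this
  set x := η / τ with hx
  have hx0 : 0 < x := by positivity
  have hx1 : x ≤ 1 / 2 := by
    rw [hx, div_le_iff₀ hτ0]; linarith
  set ρ := Real.exp (1 / τ) with hρ
  have hρ1 : 1 / τ + 1 ≤ ρ := Real.add_one_le_exp _
  have hτinv : 0 < 1 / τ := by positivity
  have hexpx : Real.exp x - Real.exp (-x) ≤ 3 * x := by
    have h2 := (abs_le.mp (Real.abs_exp_sub_one_sub_id_le (x := x) (by rw [abs_of_pos hx0]; linarith))).2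
    have h3 := Real.add_one_le_exp (-x)
    nlinarith
  set γ := Real.exp ((-1 + β) / τ) with hγ
  have hγ0 : 0 < γ := Real.exp_pos _
  have hγ1 : γ ≤ 1 := by
    rw [hγ, Real.exp_le_one_iff]
    apply div_nonpos_of_nonpos_of_nonneg <;> linarith
  have h2 : ∀ k ∈ Finset.range (K + 1), ((Finset.Icc ⌈lo k⌉₊ ⌊hi k⌋₊).card : ℝ) ≤ ρ ^ k * (3 * x) + 1 := by
    intro k _
    have hle : lo k ≤ hi k := by
      rw [hlo, hhi]; apply Real.exp_le_exp.mpr
      apply div_le_div_of_nonneg_right _ hτ0.le; linarith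
    refine (card_Icc_le _ _ hle (Real.exp_pos _).le).trans ?_
    have e1 : lo k = γ * (ρ ^ k * Real.exp (-x)) := by
      simp only [hlo]
      rw [hρ, hγ, ← Real.exp_nat_mul, ← Real.exp_add, ← Real.exp_add, hx]
      congr 1; field_simp; ring
    have e2 : hi k = γ * (ρ ^ k * Real.exp x) := by
      simp only [hhi]
      rw [hρ, hγ, ← Real.exp_nat_mul, ← Real.exp_add, ← Real.exp_add, hx]
      congr 1; field_simp; ring
    rw [e1, e2]
    have h4 : 0 ≤ ρ ^ k := by positivity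
    have h5 := mul_le_mul_of_nonneg_left hexpx h4
    have h6 : 0 ≤ ρ ^ k * (Real.exp x - Real.exp (-x)) := by
      apply mul_nonneg h4
      have : Real.exp (-x) ≤ Real.exp x := Real.exp_le_exp.mpr (by linarith)
      linarith
    have h7 : γ * (ρ ^ k * (Real.exp x - Real.exp (-x))) ≤ 1 * (ρ ^ k * (Real.exp x - Real.exp (-x))) :=
      mul_le_mul_of_nonneg_right hγ1 h6
    linarith
  have h3 := h1.trans (Finset.sum_le_sum h2)
  rw [Finset.sum_add_distrib, ← Finset.sum_mul, geom_sum_eq (by linarith)] at h3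
  simp only [Finset.sum_const, Finset.card_range, nsmul_eq_mul, mul_one] at h3
  have hρK : ρ ^ (K + 1) ≤ N * 21 := by
    have e : ρ ^ (K + 1) = Real.exp ((K + 1 : ℕ) * (1 / τ)) := by rw [hρ, ← Real.exp_nat_mul]
    have e2 : ((K + 1 : ℕ) : ℝ) * (1 / τ) ≤ Real.log N + 3 := by
      push_cast
      rw [mul_one_div, div_le_iff₀ hτ0]
      nlinarith
    rw [e]
    refine (Real.exp_le_exp.mpr e2).trans ?_
    rw [Real.exp_add, Real.exp_log (by linarith)]
    apply mul_le_mul_of_nonneg_left _ (by linarith)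
    have h9 : Real.exp 3 = Real.exp 1 * Real.exp 1 * Real.exp 1 := by
      rw [← Real.exp_add, ← Real.exp_add]; norm_num
    have h10 := Real.exp_one_lt_d9
    have h11 := Real.exp_pos 1
    rw [h9]
    have h12 : Real.exp 1 * Real.exp 1 ≤ 7.39 := by nlinarith
    nlinarith
  have hgeo : (ρ ^ (K + 1) - 1) / (ρ - 1) ≤ τ * (N * 21) := by
    rw [div_le_iff₀ (by linarith)]
    have : 1 ≤ τ * (ρ - 1) := by
      have h6 : τ * (1 / τ) ≤ τ * (ρ - 1) := mul_le_mul_of_nonneg_left (by linarith) hτ0.le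
      rwa [mul_one_div_cancel hτ0.ne'] at h6
    have h7 : (N : ℝ) * 21 * 1 ≤ N * 21 * (τ * (ρ - 1)) :=
      mul_le_mul_of_nonneg_left this (by positivity)
    linarith
  have h8 : (ρ ^ (K + 1) - 1) / (ρ - 1) * (3 * x) ≤ 63 * η * N := by
    have h9 := mul_le_mul_of_nonneg_right hgeo (show (0 : ℝ) ≤ 3 * x by positivity)
    have h10 : τ * (N * 21) * (3 * x) = 63 * η * N := by rw [hx]; field_simp; norm_num
    linarith
  push_cast at h3
  linarith

/-- eventually at most `64 η N` -/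
lemma cnt_Nr_ev (τ α η : ℝ) (hτ : 1 ≤ τ) (hη0 : 0 < η) (hη : η ≤ 1 / 2) :
    ∀ᶠ N : ℕ in atTop, cnt (Nr τ α η) N ≤ 64 * η * N := by
  filter_upwards [log_small τ 3 η hη0, eventually_ge_atTop 1] with N h1 h2
  have := cnt_Nr τ α η hτ hη0 hη N h2
  linarith

/-- Two sign patterns mixed by a slow switch. -/
noncomputable def mixf (τ τ' d κ : ℝ) (n : ℕ) : ℝ :=
  if ⌊d * Real.log n⌋ = ⌊d * Real.log n - κ⌋ then sgn τ n else sgn τ' n

lemma mixf_pm (τ τ' d κ : ℝ) (n : ℕ) : mixf τ τ' d κ n = 1 ∨ mixf τ τ' d κ n = -1 := by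
  unfold mixf; split_ifs <;> exact sgn_pm _ _

lemma mixf_zero (τ τ' d : ℝ) (n : ℕ) : mixf τ τ' d 0 n = sgn τ n := by
  unfold mixf; simp

lemma mixf_one (τ τ' d : ℝ) (n : ℕ) : mixf τ τ' d 1 n = sgn τ' n := by
  unfold mixf
  rw [if_neg]
  rw [Int.floor_sub_one]
  intro h; omega

lemma not_Nr {τ α η : ℝ} {n : ℕ} (h : n ∉ Nr τ α η) (k : ℤ) : η < |(τ * Real.log n - α) - k| := by
  by_contra hcon
  exact h ⟨k, not_lt.mp hcon⟩

lemma mixf_gen {τ τ' d κ η σ : ℝ} {n n' : ℕ} {y : ℝ} (hy : Real.log n' = Real.log n + y)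
    {m m1 m2 : ℤ} (hm : |d * y - m| ≤ η) (hm1 : |τ * y - m1| ≤ η) (hm2 : |τ' * y - m2| ≤ η)
    (hσ1 : (-1 : ℝ) ^ m1 = σ) (hσ2 : (-1 : ℝ) ^ m2 = σ)
    (h1 : n ∉ Nr d 0 η) (h2 : n ∉ Nr d κ η) (h3 : n ∉ Nr τ 0 η) (h4 : n ∉ Nr τ' 0 η) :
    mixf τ τ' d κ n' = σ * mixf τ τ' d κ n := by
  have e1 : ⌊d * Real.log n' - 0⌋ = ⌊d * Real.log n - 0⌋ + m := by
    apply floor_shift _ _ η _ (not_Nr h1)
    rw [hy]
    have : d * (Real.log n + y) - 0 - (d * Real.log n - 0) - m = d * y - m := by ring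
    rw [this]; exact hm
  have e2 : ⌊d * Real.log n' - κ⌋ = ⌊d * Real.log n - κ⌋ + m := by
    apply floor_shift _ _ η _ (not_Nr h2)
    rw [hy]
    have : d * (Real.log n + y) - κ - (d * Real.log n - κ) - m = d * y - m := by ring
    rw [this]; exact hm
  have e3 : ⌊τ * Real.log n' - 0⌋ = ⌊τ * Real.log n - 0⌋ + m1 := by
    apply floor_shift _ _ η _ (not_Nr h3)
    rw [hy]
    have : τ * (Real.log n + y) - 0 - (τ * Real.log n - 0) - m1 = τ * y - m1 := by ring
    rw [this]; exact hm1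
  have e4 : ⌊τ' * Real.log n' - 0⌋ = ⌊τ' * Real.log n - 0⌋ + m2 := by
    apply floor_shift _ _ η _ (not_Nr h4)
    rw [hy]
    have : τ' * (Real.log n + y) - 0 - (τ' * Real.log n - 0) - m2 = τ' * y - m2 := by ring
    rw [this]; exact hm2
  rw [sub_zero, sub_zero] at e1 e3 e4
  unfold mixf sgn
  rw [e1, e2, e3, e4]
  have hiff : (⌊d * Real.log n⌋ + m = ⌊d * Real.log n - κ⌋ + m) ↔
      (⌊d * Real.log n⌋ = ⌊d * Real.log n - κ⌋) := by omega
  by_cases hc : ⌊d * Real.log n⌋ = ⌊d * Real.log n - κ⌋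
  · rw [if_pos (hiff.mpr hc), if_pos hc, zpow_add₀ (by norm_num), hσ1]; ring
  · rw [if_neg (fun h => hc (hiff.mp h)), if_neg hc, zpow_add₀ (by norm_num), hσ2]; ring

lemma mixf_close {τ τ' d κ κ' : ℝ} (hκ : κ ≤ κ') {n : ℕ}
    (h : n ∉ Nr d ((κ + κ') / 2) ((κ' - κ) / 2)) : mixf τ τ' d κ n = mixf τ τ' d κ' n := by
  have e : ⌊d * Real.log n - κ⌋ = ⌊d * Real.log n - κ'⌋ := by
    have h1 := not_Nr h ⌊d * Real.log n - κ⌋
    have h2 := Int.floor_le (d * Real.log n - κ)
    have h3 := Int.lt_floor_add_one (d * Real.log n - κ)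
    symm
    rw [Int.floor_eq_iff]
    constructor
    · by_contra hcon
      push Not at hcon
      apply absurd h1
      rw [not_lt, abs_le]
      constructor <;> linarith
    · linarith
  unfold mixf
  rw [e]

/-- rapidly growing scales -/
def scale (T : ℕ → ℕ) : ℕ → ℕ
  | 0 => 0
  | (j + 1) => (j + 1) * scale T j + T j + T (j + 1) + scale T j + 1

/-- Gluing a sequence of functions, consecutive ones being close in density. -/
lemma glue (c : ℕ → ℕ → ℝ) (e : ℕ → ℝ) (he : Tendsto e atTop (𝓝 0)) (T : ℕ → ℕ)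
    (hclose : ∀ j N, T j ≤ N → cnt {n | c j n ≠ c (j + 1) n} N ≤ e j * N) :
    ∃ J : ℕ → ℕ, Tendsto J atTop atTop ∧ (∀ᶠ N in atTop, T (J N) ≤ N) ∧
      ∀ C : ℕ, 1 ≤ C → ∀ ε : ℝ, 0 < ε → ∀ᶠ N : ℕ in atTop,
        cnt {n | c (J n) n ≠ c (J N) n} (C * N) ≤ ε * N := by
  classical
  -- the switching scales
  obtain ⟨M, hM0, hMs⟩ : ∃ M : ℕ → ℕ, M 0 = 0 ∧
      ∀ j, M (j + 1) = (j + 1) * M j + T j + T (j + 1) + M j + 1 :=
    ⟨scale T, rfl, fun j => rfl⟩
  have hmono : StrictMono M := strictMono_nat_of_lt_succ fun j => by rw [hMs]; omega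
  set J : ℕ → ℕ := fun N => Nat.findGreatest (fun j => M j ≤ N) N with hJ
  have hJ1 : ∀ N, M (J N) ≤ N := by
    intro N
    have := Nat.findGreatest_spec (P := fun j => M j ≤ N) (Nat.zero_le N) (by rw [hM0]; omega)
    exact this
  have hJ2 : ∀ N, N < M (J N + 1) := by
    intro N
    by_contra hcon
    push Not at hcon
    have h1 : J N + 1 ≤ N := (hmono.id_le (J N + 1)).trans hcon
    have := Nat.findGreatest_is_greatest (P := fun j => M j ≤ N) (Nat.lt_succ_self (J N)) h1
    exact this hcon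
  have hJmono : ∀ n j, M j ≤ n → j ≤ J n := by
    intro n j h
    by_contra hcon
    push Not at hcon
    have : M (J n + 1) ≤ M j := hmono.monotone hcon
    have := hJ2 n
    omega
  have hJlt : ∀ n j, n < M j → J n < j := by
    intro n j h
    by_contra hcon
    push Not at hcon
    have : M j ≤ M (J n) := hmono.monotone hcon
    have := hJ1 n
    omega
  have htend : Tendsto J atTop atTop := by
    rw [tendsto_atTop]
    intro b
    filter_upwards [eventually_ge_atTop (M b)] with n hn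
    exact hJmono n b hn
  refine ⟨J, htend, ?_, ?_⟩
  · filter_upwards [htend.eventually_ge_atTop 1] with N hN
    obtain ⟨j, hj⟩ : ∃ j, J N = j + 1 := ⟨J N - 1, by omega⟩
    have h1 := hJ1 N
    rw [hj] at h1 ⊢
    rw [hMs] at h1
    omega
  · intro C hC ε hε
    have hC0 : (0 : ℝ) < C := by exact_mod_cast hC
    -- eventually in the index
    have hε1 : ∀ᶠ j : ℕ in atTop, |e j| ≤ ε / (4 * C) := by
      have := he.eventually (Metric.ball_mem_nhds 0 (show 0 < ε / (4 * C) by positivity))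
      filter_upwards [this] with j hj
      have hj' : dist (e j) 0 < ε / (4 * C) := hj
      rw [Real.dist_eq, sub_zero] at hj'
      exact hj'.le
    have hε2 : ∀ᶠ j : ℕ in atTop, (1 : ℝ) ≤ ε / 2 * j := by
      have := (tendsto_natCast_atTop_atTop (R := ℝ)).const_mul_atTop (show 0 < ε / 2 by positivity)
      exact this.eventually_ge_atTop 1
    have hall : ∀ᶠ j : ℕ in atTop, |e j| ≤ ε / (4 * C) ∧ |e (j + 1)| ≤ ε / (4 * C) ∧
        (1 : ℝ) ≤ ε / 2 * (j + 1) ∧ C ≤ j + 2 := by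
      filter_upwards [hε1, (tendsto_add_atTop_nat 1).eventually hε1,
        (tendsto_add_atTop_nat 1).eventually hε2, eventually_ge_atTop C] with j a1 a2 a3 a4
      push_cast at a3
      exact ⟨a1, a2, a3, by omega⟩
    have htend' : Tendsto (fun N => J N - 1) atTop atTop := by
      rw [tendsto_atTop]
      intro b
      filter_upwards [htend.eventually_ge_atTop (b + 1)] with n hn
      omega
    filter_upwards [htend'.eventually hall, htend.eventually_ge_atTop 1] with N hN hN1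
    obtain ⟨j, hj⟩ : ∃ j, J N = j + 1 := ⟨J N - 1, by omega⟩
    rw [hj] at hN
    simp only [Nat.add_sub_cancel] at hN
    obtain ⟨a1, a2, a3, a4⟩ := hN
    have b1 : M (j + 1) ≤ N := by have := hJ1 N; rwa [hj] at this
    have b2 : N < M (j + 2) := by have := hJ2 N; rwa [hj] at this
    have b3 : C * N < M (j + 3) := by
      have h1 := hMs (j + 2)
      have h2 : C * N ≤ (j + 2) * M (j + 2) := Nat.mul_le_mul a4 b2.le
      have h3 : (j + 2) * M (j + 2) ≤ (j + 2 + 1) * M (j + 2) := Nat.mul_le_mul_right _ (by omega)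
      show C * N < M (j + 2 + 1)
      omega
    have hT : T j ≤ C * N ∧ T (j + 1) ≤ C * N := by
      have h1 := hMs j
      have h2 : N ≤ C * N := Nat.le_mul_of_pos_left N hC
      constructor <;> omega
    have hsub : cnt {n | c (J n) n ≠ c (J N) n} (C * N)
        ≤ cnt ({n | c j n ≠ c (j + 1) n} ∪ {n | c (j + 1) n ≠ c (j + 1 + 1) n}) (C * N) + M j := by
      refine (cnt_tail _ _ (M j)).trans ?_
      apply add_le_add _ le_rfl
      apply cnt_mono'
      rintro n hn0 hnN ⟨hn1, hn2⟩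
      have d1 : j ≤ J n := hJmono n j hn2
      have d2 : J n < j + 3 := hJlt n (j + 3) (lt_of_le_of_lt hnN b3)
      have d3 : J n = j ∨ J n = j + 1 ∨ J n = j + 2 := by omega
      have hn1' : c (J n) n ≠ c (J N) n := hn1
      rw [hj] at hn1'
      rcases d3 with d | d | d
      · rw [d] at hn1'; exact Or.inl hn1'
      · rw [d] at hn1'; exact absurd rfl hn1'
      · rw [d] at hn1'; exact Or.inr hn1'.symm
    have hMj : (M j : ℝ) ≤ ε / 2 * N := by
      have h1 : (j + 1) * M j ≤ N := by have := hMs j; omega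
      have h2 : ((j : ℝ) + 1) * M j ≤ N := by exact_mod_cast h1
      have h3 : (0 : ℝ) ≤ M j := by positivity
      have h4 : 1 * (M j : ℝ) ≤ ε / 2 * (j + 1) * M j := mul_le_mul_of_nonneg_right a3 h3
      have h5 : ε / 2 * ((j + 1) * (M j : ℝ)) ≤ ε / 2 * N := mul_le_mul_of_nonneg_left h2 (by positivity)
      linarith
    have c1 := hclose j (C * N) hT.1
    have c2 := hclose (j + 1) (C * N) hT.2
    have c3 := cnt_union {n | c j n ≠ c (j + 1) n} {n | c (j + 1) n ≠ c (j + 1 + 1) n} (C * N)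
    have hCN : (0 : ℝ) ≤ (C * N : ℕ) := by positivity
    have c4 : e j * (C * N : ℕ) ≤ ε / (4 * C) * (C * N : ℕ) :=
      mul_le_mul_of_nonneg_right ((le_abs_self _).trans a1) hCN
    have c5 : e (j + 1) * (C * N : ℕ) ≤ ε / (4 * C) * (C * N : ℕ) :=
      mul_le_mul_of_nonneg_right ((le_abs_self _).trans a2) hCN
    have c6 : ε / (4 * C) * (C * N : ℕ) = ε / 4 * N := by push_cast; field_simp
    rw [c6] at c4 c5
    linarith

/-- Slowly varying functions with prescribed dilation signs. -/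
lemma slow (σ : ℕ → ℝ) (hσ : ∀ p, σ p = 1 ∨ σ p = -1) :
    ∃ c : ℕ → ℝ, (∀ n, c n = 1 ∨ c n = -1) ∧ (∀ p : ℕ, p.Prime → DZ {n | c (p * n) ≠ σ p * c n}) ∧
      DZ {n | c (n + 1) ≠ c n} := by
  classical
  -- the stages
  set Q : ℕ → Finset ℕ := fun i => (Finset.range (i + 1)).filter Nat.Prime with hQ
  set δ : ℕ → ℝ := fun i => (1 / 2) ^ (i + 1) with hδ
  have hδ0 : ∀ i, 0 < δ i := fun i => by simp only [hδ]; positivity
  have hδ1 : ∀ i, δ i ≤ 1 / 2 := fun i => by
    simp only [hδ]; rw [pow_succ]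
    have : ((1 : ℝ) / 2) ^ i ≤ 1 := pow_le_one₀ (by norm_num) (by norm_num)
    linarith
  have hδmono : ∀ i, δ (i + 1) ≤ δ i := fun i => by
    simp only [hδ]; rw [pow_succ _ (i + 1)]
    have : (0 : ℝ) < (1 / 2) ^ (i + 1) := by positivity
    linarith
  have hQp : ∀ i, ∀ p ∈ Q i, p.Prime := fun i p hp => (Finset.mem_filter.mp hp).2
  have hQmono : ∀ i, Q i ⊆ Q (i + 1) := fun i p hp => by
    simp only [hQ, Finset.mem_filter, Finset.mem_range] at hp ⊢
    exact ⟨by omega, hp.2⟩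
  choose τ hτ m hm using fun i => kron (Q i) (hQp i) σ hσ (δ i) (hδ0 i) 1
  choose d hd md hmd using fun i => kron (Q i) (hQp i) (fun _ => 1) (fun _ => Or.inl rfl) (δ i) (hδ0 i) 1
  -- the sequence
  set c : ℕ → ℕ → ℝ := fun j n =>
    mixf (τ (Nat.log 2 j)) (τ (Nat.log 2 j + 1)) (d (Nat.log 2 j))
      (((j - 2 ^ Nat.log 2 j : ℕ) : ℝ) / 2 ^ Nat.log 2 j) n with hc
  have hcpm : ∀ j n, c j n = 1 ∨ c j n = -1 := fun j n => mixf_pm _ _ _ _ _
  have hlogstep : ∀ j, 1 ≤ j → ∀ n, c (j + 1) n =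
      mixf (τ (Nat.log 2 j)) (τ (Nat.log 2 j + 1)) (d (Nat.log 2 j))
      (((j - 2 ^ Nat.log 2 j + 1 : ℕ) : ℝ) / 2 ^ Nat.log 2 j) n := by
    intro j hj n
    have h1 : 2 ^ Nat.log 2 j ≤ j := Nat.pow_log_le_self 2 (by omega)
    have h2 : j < 2 ^ (Nat.log 2 j + 1) := Nat.lt_pow_succ_log_self (by norm_num) j
    set i := Nat.log 2 j with hi
    by_cases hcase : j + 1 < 2 ^ (i + 1)
    · have h3 : Nat.log 2 (j + 1) = i := by
        rw [Nat.log_eq_iff (by omega)]; exact ⟨by omega, hcase⟩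
      simp only [hc]
      rw [h3]
      congr 3
      omega
    · have h4 : j + 1 = 2 ^ (i + 1) := by omega
      have h3 : Nat.log 2 (j + 1) = i + 1 := by rw [h4, Nat.log_pow (by norm_num)]
      simp only [hc]
      rw [h3, h4, Nat.sub_self, Nat.cast_zero, zero_div, mixf_zero]
      have h5 : j - 2 ^ i + 1 = 2 ^ i := by
        have : 2 ^ (i + 1) = 2 * 2 ^ i := by ring
        omega
      rw [h5]
      push_cast
      rw [div_self (by positivity), mixf_one]
  -- quality of the sequence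
  set e : ℕ → ℝ := fun j => 400 * δ (Nat.log 2 j) with he
  have hetend : Tendsto e atTop (𝓝 0) := by
    have h1 : Tendsto (fun j => Nat.log 2 j) atTop atTop := by
      rw [tendsto_atTop]
      intro b
      filter_upwards [eventually_ge_atTop (2 ^ b)] with j hj
      exact Nat.le_log_of_pow_le (by norm_num) hj
    have h2 : Tendsto (fun i : ℕ => ((1 : ℝ) / 2) ^ (i + 1)) atTop (𝓝 0) :=
      (tendsto_add_atTop_iff_nat 1).mpr
        (tendsto_pow_atTop_nhds_zero_of_lt_one (by norm_num) (by norm_num))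
    have h3 := (h2.comp h1).const_mul (400 : ℝ)
    rw [mul_zero] at h3
    exact h3
  have hτ1 : ∀ i, 1 ≤ τ i := hτ
  have hd1 : ∀ i, 1 ≤ d i := hd
  have hqual : ∀ j : ℕ, ∀ᶠ N : ℕ in atTop,
      cnt {n | c j n ≠ c (j + 1) n} N ≤ (if 1 ≤ j then e j else 1) * N ∧
      (∀ p ∈ Q (Nat.log 2 j), cnt {n | c j (p * n) ≠ σ p * c j n} N ≤ e j * N) ∧
      cnt {n | c j (n + 1) ≠ c j n} N ≤ e j * N := by
    intro j
    set i := Nat.log 2 j with hi
    set κ : ℝ := ((j - 2 ^ i : ℕ) : ℝ) / 2 ^ i with hκ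
    set κ' : ℝ := ((j - 2 ^ i + 1 : ℕ) : ℝ) / 2 ^ i with hκ'
    have hκκ : (κ' - κ) / 2 = δ i := by
      rw [hκ, hκ']; simp only [hδ]
      push_cast
      rw [pow_succ, one_div_pow]
      field_simp; ring
    have hκle : κ ≤ κ' := by have := hδ0 i; linarith
    have hcj : c j = mixf (τ i) (τ (i + 1)) (d i) κ := rfl
    set Bad : Set ℕ := (Nr (d i) 0 (δ i) ∪ Nr (d i) κ (δ i)) ∪ (Nr (τ i) 0 (δ i) ∪ Nr (τ (i + 1)) 0 (δ i))
      with hBad
    have hBadc : ∀ᶠ N : ℕ in atTop, cnt Bad N ≤ 256 * δ i * N := by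
      filter_upwards [cnt_Nr_ev (d i) 0 (δ i) (hd1 i) (hδ0 i) (hδ1 i),
        cnt_Nr_ev (d i) κ (δ i) (hd1 i) (hδ0 i) (hδ1 i),
        cnt_Nr_ev (τ i) 0 (δ i) (hτ1 i) (hδ0 i) (hδ1 i),
        cnt_Nr_ev (τ (i + 1)) 0 (δ i) (hτ1 (i + 1)) (hδ0 i) (hδ1 i)] with N a1 a2 a3 a4
      have u1 := cnt_union (Nr (d i) 0 (δ i) ∪ Nr (d i) κ (δ i)) (Nr (τ i) 0 (δ i) ∪ Nr (τ (i + 1)) 0 (δ i)) N
      have u2 := cnt_union (Nr (d i) 0 (δ i)) (Nr (d i) κ (δ i)) N
      have u3 := cnt_union (Nr (τ i) 0 (δ i)) (Nr (τ (i + 1)) 0 (δ i)) N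
      linarith
    have hgood : ∀ n, n ∉ Bad → n ∉ Nr (d i) 0 (δ i) ∧ n ∉ Nr (d i) κ (δ i) ∧
        n ∉ Nr (τ i) 0 (δ i) ∧ n ∉ Nr (τ (i + 1)) 0 (δ i) := by
      intro n hn
      simp only [hBad, Set.mem_union, not_or] at hn
      exact ⟨hn.1.1, hn.1.2, hn.2.1, hn.2.2⟩
    -- threshold for the shift by one
    have hshift : ∃ n0 : ℕ, ∀ n, n0 ≤ n → n ∉ Bad → c j (n + 1) = c j n := by
      have h1 := log_small 0 (d i) (δ i) (hδ0 i)
      have h2 := log_small 0 (τ i) (δ i) (hδ0 i)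
      have h3 := log_small 0 (τ (i + 1)) (δ i) (hδ0 i)
      obtain ⟨n0, hn0⟩ := Filter.eventually_atTop.mp ((h1.and (h2.and h3)).and (eventually_ge_atTop 1))
      refine ⟨n0, fun n hn hnB => ?_⟩
      obtain ⟨⟨h1, h2, h3⟩, hn1⟩ := hn0 n hn
      have hnpos : (1 : ℝ) ≤ n := by exact_mod_cast hn1
      obtain ⟨g1, g2, g3, g4⟩ := hgood n hnB
      set y := Real.log (n + 1 : ℕ) - Real.log n with hy
      have hy0 : 0 ≤ y := by
        have : Real.log n ≤ Real.log (n + 1 : ℕ) := Real.log_le_log (by linarith) (by push_cast; linarith)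
        linarith
      have hy1 : y ≤ 1 / n := by
        rw [hy, ← Real.log_div (by positivity) (by positivity)]
        have e1 : (((n + 1 : ℕ) : ℝ)) / n = 1 + 1 / n := by push_cast; field_simp
        rw [e1]
        have := Real.log_le_sub_one_of_pos (show (0 : ℝ) < 1 + 1 / n by positivity)
        linarith
      have hsmall : ∀ t : ℝ, 1 ≤ t → 0 * Real.log n + t ≤ δ i * n → |t * y - (0 : ℤ)| ≤ δ i := by
        intro t ht htn
        rw [Int.cast_zero, sub_zero, abs_of_nonneg (by positivity)]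
        have h5 : t * y ≤ t * (1 / n) := mul_le_mul_of_nonneg_left hy1 (by linarith)
        have h6 : t * (1 / n) ≤ δ i := by
          rw [mul_one_div, div_le_iff₀ (by linarith)]; linarith
        linarith
      rw [hcj]
      have := mixf_gen (σ := 1) (κ := κ) (n' := n + 1) (y := y) (show Real.log (n + 1 : ℕ) = Real.log n + y by rw [hy]; ring)
        (hsmall (d i) (hd1 i) h1) (hsmall (τ i) (hτ1 i) h2) (hsmall (τ (i + 1)) (hτ1 (i + 1)) h3)
        (by simp) (by simp) g1 g2 g3 g4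
      rw [this, one_mul]
    obtain ⟨n0, hn0⟩ := hshift
    have hdil : ∀ p ∈ Q i, ∀ n, 1 ≤ n → n ∉ Bad → c j (p * n) = σ p * c j n := by
      intro p hp n hn hnB
      obtain ⟨g1, g2, g3, g4⟩ := hgood n hnB
      have hpp := hQp i p hp
      rw [hcj]
      apply mixf_gen (y := Real.log p) _ (hmd i p hp).1 (hm i p hp).1
        ((hm (i + 1) p (hQmono i hp)).1.trans (hδmono i)) (hm i p hp).2
        (hm (i + 1) p (hQmono i hp)).2 g1 g2 g3 g4
      push_cast
      rw [Real.log_mul (by exact_mod_cast hpp.ne_zero) (by positivity)]; ring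
    have hclose : ∀ᶠ N : ℕ in atTop,
        cnt {n | c j n ≠ c (j + 1) n} N ≤ (if 1 ≤ j then e j else 1) * N := by
      split_ifs with hj
      · filter_upwards [cnt_Nr_ev (d i) ((κ + κ') / 2) ((κ' - κ) / 2) (hd1 i)
          (by rw [hκκ]; exact hδ0 i) (by rw [hκκ]; exact hδ1 i)] with N hN
        have h1 : cnt {n | c j n ≠ c (j + 1) n} N ≤ cnt (Nr (d i) ((κ + κ') / 2) ((κ' - κ) / 2)) N := by
          apply cnt_mono
          intro n hn
          by_contra hcon
          apply hn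
          rw [hlogstep j hj n, hcj]
          exact mixf_close hκle hcon
        rw [hκκ] at hN h1
        have h2 : (0 : ℝ) ≤ δ i * N := mul_nonneg (hδ0 i).le (by positivity)
        have h3 : e j * (N : ℝ) = 400 * (δ i * N) := by simp only [he]; ring
        rw [h3]
        linarith
      · filter_upwards with N
        rw [one_mul]; exact cnt_le _ _
    filter_upwards [hclose, hBadc, log_small 0 n0 (δ i) (hδ0 i)] with N a1 a2 a3
    have h2 : (0 : ℝ) ≤ δ i * N := mul_nonneg (hδ0 i).le (by positivity)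
    have h3 : e j * (N : ℝ) = 400 * (δ i * N) := by simp only [he]; ring
    refine ⟨a1, fun p hp => ?_, ?_⟩
    · have h4 : cnt {n | c j (p * n) ≠ σ p * c j n} N ≤ cnt Bad N := by
        apply cnt_mono'
        intro n hn _ hn2
        by_contra hcon
        exact hn2 (hdil p hp n hn hcon)
      rw [h3]; linarith
    · have h4 : cnt {n | c j (n + 1) ≠ c j n} N ≤ cnt Bad N + n0 := by
        refine (cnt_tail _ _ n0).trans ?_
        apply add_le_add _ le_rfl
        apply cnt_mono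
        rintro n ⟨hn1, hn2⟩
        by_contra hcon
        exact hn1 (hn0 n hn2 hcon)
      rw [h3]; linarith
  choose T hT using fun j => Filter.eventually_atTop.mp (hqual j)
  have hetend' : Tendsto (fun j : ℕ => if 1 ≤ j then e j else 1) atTop (𝓝 0) := by
    refine hetend.congr' ?_
    filter_upwards [eventually_ge_atTop 1] with j hj
    rw [if_pos hj]
  obtain ⟨J, hJ1, hJ2, hJ3⟩ := glue c (fun j => if 1 ≤ j then e j else 1) hetend' T
    (fun j N hN => (hT j N hN).1)
  refine ⟨fun n => c (J n) n, fun n => hcpm _ _, fun p hp => ?_, ?_⟩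
  · intro ε hε
    have hp1 : 1 ≤ p := hp.one_le
    have he2 : ∀ᶠ N in atTop, e (J N) ≤ ε / 4 := by
      have := (hetend.comp hJ1).eventually (gt_mem_nhds (show (0 : ℝ) < ε / 4 by positivity))
      filter_upwards [this] with N hN
      exact hN.le
    have hQev : ∀ᶠ N in atTop, p ∈ Q (Nat.log 2 (J N)) := by
      filter_upwards [hJ1.eventually_ge_atTop (2 ^ p)] with N hN
      simp only [hQ, Finset.mem_filter, Finset.mem_range]
      exact ⟨Nat.lt_succ_of_le (Nat.le_log_of_pow_le (by norm_num) hN), hp⟩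
    filter_upwards [hJ2, hJ3 p hp1 (ε / 4) (by positivity), hJ3 1 le_rfl (ε / 4) (by positivity),
      he2, hQev] with N a1 a2 a3 a4 a5
    have h1 := (hT (J N) N a1).2.1 p a5
    have h2 : cnt {n | c (J (p * n)) (p * n) ≠ σ p * c (J n) n} N
        ≤ cnt ({n | c (J (p * n)) (p * n) ≠ c (J N) (p * n)} ∪
          ({n | c (J n) n ≠ c (J N) n} ∪ {n | c (J N) (p * n) ≠ σ p * c (J N) n})) N := by
      apply cnt_mono
      intro n hn
      by_contra hcon
      simp only [Set.mem_union, Set.mem_ofPred_eq, not_or, not_not] at hcon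
      apply hn
      show c (J (p * n)) (p * n) = σ p * c (J n) n
      rw [hcon.1, hcon.2.1, hcon.2.2]
    have h3 := cnt_union {n | c (J (p * n)) (p * n) ≠ c (J N) (p * n)}
      ({n | c (J n) n ≠ c (J N) n} ∪ {n | c (J N) (p * n) ≠ σ p * c (J N) n}) N
    have h4 := cnt_union {n | c (J n) n ≠ c (J N) n} {n | c (J N) (p * n) ≠ σ p * c (J N) n} N
    have h5 : cnt {n | c (J (p * n)) (p * n) ≠ c (J N) (p * n)} N
        ≤ cnt {n | c (J n) n ≠ c (J N) n} (p * N) := by
      apply cnt_inj (fun n => p * n)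
      · intro n hn hn0 hnN
        exact ⟨hn, Nat.mul_pos (by omega) hn0, Nat.mul_le_mul_left p hnN⟩
      · intro a b hab
        exact Nat.eq_of_mul_eq_mul_left (by omega) hab
    rw [one_mul] at a3
    have h6 := mul_le_mul_of_nonneg_right a4 (show (0 : ℝ) ≤ N by positivity)
    have h7 : (0 : ℝ) ≤ ε * N := by positivity
    linarith
  · intro ε hε
    have he2 : ∀ᶠ N in atTop, e (J N) ≤ ε / 4 := by
      have := (hetend.comp hJ1).eventually (gt_mem_nhds (show (0 : ℝ) < ε / 4 by positivity))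
      filter_upwards [this] with N hN
      exact hN.le
    filter_upwards [hJ2, hJ3 2 (by norm_num) (ε / 4) (by positivity),
      hJ3 1 le_rfl (ε / 4) (by positivity), he2, eventually_ge_atTop 1] with N a1 a2 a3 a4 a5
    have h1 := (hT (J N) N a1).2.2
    have h2 : cnt {n | c (J (n + 1)) (n + 1) ≠ c (J n) n} N
        ≤ cnt ({n | c (J (n + 1)) (n + 1) ≠ c (J N) (n + 1)} ∪
          ({n | c (J n) n ≠ c (J N) n} ∪ {n | c (J N) (n + 1) ≠ c (J N) n})) N := by
      apply cnt_mono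
      intro n hn
      by_contra hcon
      simp only [Set.mem_union, Set.mem_ofPred_eq, not_or, not_not] at hcon
      apply hn
      show c (J (n + 1)) (n + 1) = c (J n) n
      rw [hcon.1, hcon.2.1, hcon.2.2]
    have h3 := cnt_union {n | c (J (n + 1)) (n + 1) ≠ c (J N) (n + 1)}
      ({n | c (J n) n ≠ c (J N) n} ∪ {n | c (J N) (n + 1) ≠ c (J N) n}) N
    have h4 := cnt_union {n | c (J n) n ≠ c (J N) n} {n | c (J N) (n + 1) ≠ c (J N) n} N
    have h5 : cnt {n | c (J (n + 1)) (n + 1) ≠ c (J N) (n + 1)} N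
        ≤ cnt {n | c (J n) n ≠ c (J N) n} (2 * N) := by
      apply cnt_inj (fun n => n + 1)
      · intro n hn hn0 hnN
        exact ⟨hn, Nat.succ_pos n, by show n + 1 ≤ 2 * N; omega⟩
      · intro a b hab; omega
    rw [one_mul] at a3
    have h6 := mul_le_mul_of_nonneg_right a4 (show (0 : ℝ) ≤ N by positivity)
    have h7 : (0 : ℝ) ≤ ε * N := by positivity
    linarith

lemma DZ.mono' {A B : Set ℕ} (hB : DZ B) (h : ∀ n, 0 < n → n ∈ A → n ∈ B) : DZ A := by
  intro ε hε
  filter_upwards [hB ε hε] with N hN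
  exact (cnt_mono' fun n hn _ hA => h n hn hA).trans hN

lemma DZ.preimage_inj {B : Set ℕ} (hB : DZ B) (C : ℕ) (hC : 1 ≤ C) (g : ℕ → ℕ)
    (hinj : ∀ a b, 0 < a → 0 < b → g a = g b → a = b) (hg : ∀ n, 0 < n → 0 < g n ∧ g n ≤ C * n) :
    DZ {n | g n ∈ B} := by
  intro ε hε
  have hC0 : (0 : ℝ) < C := by exact_mod_cast hC
  have h1 := (tendsto_id.const_mul_atTop' (r := C) (by omega) : Tendsto (fun N : ℕ => C * N) atTop atTop).eventually
    (hB (ε / C) (by positivity))
  filter_upwards [h1] with N hN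
  have h2 : cnt {n | g n ∈ B} N ≤ cnt B (C * N) := by
    unfold cnt
    have : ({n | g n ∈ B} ∩ Set.Ioc 0 N).ncard ≤ (B ∩ Set.Ioc 0 (C * N)).ncard := by
      apply Set.ncard_le_ncard_of_injOn g
      · rintro n ⟨hn, hn2⟩
        have := hg n hn2.1
        exact ⟨hn, this.1, this.2.trans (Nat.mul_le_mul_left C hn2.2)⟩
      · rintro a ⟨_, ha⟩ b ⟨_, hb⟩ hab
        exact hinj a b ha.1 hb.1 hab
    exact_mod_cast this
  refine h2.trans (hN.trans (le_of_eq ?_))
  push_cast; field_simp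

/-- powers of `2` and `3` with exponents of different parity can be relatively close -/
lemma parity_powers (η : ℝ) (hη : 0 < η) :
    ∃ a b : ℕ, Odd (a + b) ∧ |(2 : ℝ) ^ a - 3 ^ b| ≤ η * (2 ^ a + 3 ^ b) := by
  have hl2 : 0 < Real.log 2 := Real.log_pos (by norm_num)
  have hl2' := Real.log_two_gt_d9
  have hl3 : 0 < Real.log 3 := Real.log_pos (by norm_num)
  have hl23 : Real.log 2 < Real.log 3 := Real.log_lt_log (by norm_num) (by norm_num)
  -- independence
  have hind : ∀ a b : ℕ, (a : ℝ) * Real.log 2 = b * Real.log 3 → a = 0 ∧ b = 0 := by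
    intro a b h
    rw [← Real.log_pow, ← Real.log_pow] at h
    have h2 := Real.log_injOn_pos (by simp) (by simp) h
    have h3 : 2 ^ a = 3 ^ b := by exact_mod_cast h2
    have ha : a = 0 := by
      by_contra ha
      have : Even (2 ^ a) := (Nat.even_pow.mpr ⟨even_two, ha⟩)
      rw [h3] at this
      exact (Nat.not_even_iff_odd.mpr (Odd.pow (by decide))) this
    subst ha
    refine ⟨rfl, ?_⟩
    rw [pow_zero] at h3
    by_contra hb
    have : 1 < 3 ^ b := Nat.one_lt_pow hb (by norm_num)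
    omega
  set G : AddSubgroup ℝ := AddSubgroup.closure {Real.log 2 + Real.log 3, 2 * Real.log 2} with hG
  have hdense : Dense (G : Set ℝ) := by
    rcases AddSubgroup.dense_or_cyclic G with h | ⟨z, hz⟩
    · exact h
    · exfalso
      have m1 : Real.log 2 + Real.log 3 ∈ G := AddSubgroup.subset_closure (by simp)
      have m2 : 2 * Real.log 2 ∈ G := AddSubgroup.subset_closure (by simp)
      rw [hz, AddSubgroup.mem_closure_singleton] at m1 m2
      obtain ⟨m, hm⟩ := m1
      obtain ⟨m', hm'⟩ := m2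
      rw [zsmul_eq_mul] at hm hm'
      have hm'0 : m' ≠ 0 := by
        rintro rfl
        simp at hm'
        linarith
      -- m' (log 2 + log 3) = 2 m log 2
      have e1 : (m' : ℝ) * Real.log 3 = (2 * m - m' : ℤ) * Real.log 2 := by
        have : (m' : ℝ) * (Real.log 2 + Real.log 3) = m * (2 * Real.log 2) := by
          rw [← hm, ← hm']; ring
        push_cast; linarith
      have e2 : ((2 * m - m' : ℤ).natAbs : ℝ) * Real.log 2 = (m'.natAbs : ℝ) * Real.log 3 := by
        have h1 := congrArg abs e1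
        rw [abs_mul, abs_mul, abs_of_pos hl3, abs_of_pos hl2] at h1
        rw [Nat.cast_natAbs, Nat.cast_natAbs, Int.cast_abs, Int.cast_abs]
        exact h1.symm
      have := (hind _ _ e2).2
      exact hm'0 (Int.natAbs_eq_zero.mp this)
  set η' : ℝ := min (η / 2) (1 / 2) with hη'
  have hη'0 : 0 < η' := by positivity
  have hη'1 : η' ≤ 1 / 2 := min_le_right _ _
  have hη'2 : 2 * η' ≤ η := by have := min_le_left (η / 2) (1 / 2); linarith
  obtain ⟨g, hgG, hg⟩ := hdense.exists_mem_open (isOpen_Ioo (a := - Real.log 2) (b := - Real.log 2 + η'))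
    ⟨- Real.log 2 + η' / 2, by constructor <;> linarith⟩
  rw [SetLike.mem_coe, hG, AddSubgroup.mem_closure_pair] at hgG
  obtain ⟨u, v, huv⟩ := hgG
  rw [zsmul_eq_mul, zsmul_eq_mul] at huv
  set A : ℤ := u + 2 * v + 1 with hA
  set B : ℤ := u with hB
  set θ : ℝ := A * Real.log 2 + B * Real.log 3 with hθ
  have hθg : θ = g + Real.log 2 := by
    rw [hθ, hA, ← huv]; push_cast; ring
  have hθ0 : 0 < θ := by rw [hθg]; linarith [hg.1]
  have hθ1 : θ < η' := by rw [hθg]; linarith [hg.2]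
  have hexpθ : Real.exp θ - 1 ≤ 2 * θ := by
    have h2 := (abs_le.mp (Real.abs_exp_sub_one_sub_id_le (x := θ)
      (by rw [abs_of_pos hθ0]; linarith))).2
    nlinarith
  have hexpθ0 : 1 < Real.exp θ := Real.one_lt_exp_iff.mpr hθ0
  have hodd : Odd (A + B) := ⟨u + v, by rw [hA, hB]; ring⟩
  rcases le_or_gt 0 A with hA0 | hA0 <;> rcases le_or_gt 0 B with hB0 | hB0
  · -- both nonnegative: impossible
    exfalso
    have hAr : (0 : ℝ) ≤ A := by exact_mod_cast hA0
    have hBr : (0 : ℝ) ≤ B := by exact_mod_cast hB0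
    have h1 : 1 ≤ A + B := by
      rcases hodd with ⟨k, hk⟩; omega
    have h1r : (1 : ℝ) ≤ A + B := by exact_mod_cast h1
    have : Real.log 2 ≤ θ := by rw [hθ]; nlinarith
    linarith
  · obtain ⟨a, ha⟩ := Int.eq_ofNat_of_zero_le hA0
    obtain ⟨b, hb⟩ := Int.eq_ofNat_of_zero_le (show 0 ≤ -B by omega)
    refine ⟨a, b, ?_, ?_⟩
    · rcases hodd with ⟨k, hk⟩
      rw [← Int.odd_coe_nat]
      refine ⟨k - B, ?_⟩
      push_cast
      have : (a : ℤ) = A := ha.symm
      have : (b : ℤ) = -B := hb.symm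
      omega
    · have hAr : (A : ℝ) = a := by rw [ha]; simp
      have hBr : (B : ℝ) = -b := by
        have : B = -(b : ℤ) := by omega
        rw [this]; simp
      have hθ' : Real.exp θ * 3 ^ b = 2 ^ a := by
        have h2 : (2 : ℝ) ^ a = Real.exp (a * Real.log 2) := by
          rw [Real.exp_nat_mul, Real.exp_log (by norm_num)]
        have h3 : (3 : ℝ) ^ b = Real.exp (b * Real.log 3) := by
          rw [Real.exp_nat_mul, Real.exp_log (by norm_num)]
        rw [h2, h3, ← Real.exp_add, hθ, hAr, hBr]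
        congr 1; ring
      have h3pos : (0 : ℝ) < 3 ^ b := by positivity
      have h2pos : (0 : ℝ) < 2 ^ a := by positivity
      rw [abs_of_nonneg (by rw [← hθ']; nlinarith), ← hθ']
      have h5 : Real.exp θ * 3 ^ b - 3 ^ b = (Real.exp θ - 1) * 3 ^ b := by ring
      rw [h5]
      have h6 : (Real.exp θ - 1) * 3 ^ b ≤ η * 3 ^ b :=
        mul_le_mul_of_nonneg_right (by linarith) h3pos.le
      have h7 : 0 ≤ η * (Real.exp θ * 3 ^ b) := by positivity
      linarith
  · obtain ⟨a, ha⟩ := Int.eq_ofNat_of_zero_le (show 0 ≤ -A by omega)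
    obtain ⟨b, hb⟩ := Int.eq_ofNat_of_zero_le hB0
    refine ⟨a, b, ?_, ?_⟩
    · rcases hodd with ⟨k, hk⟩
      rw [← Int.odd_coe_nat]
      refine ⟨k - A, ?_⟩
      push_cast
      have : (a : ℤ) = -A := ha.symm
      have : (b : ℤ) = B := hb.symm
      omega
    · have hBr : (B : ℝ) = b := by rw [hb]; simp
      have hAr : (A : ℝ) = -a := by
        have : A = -(a : ℤ) := by omega
        rw [this]; simp
      have hθ' : Real.exp θ * 2 ^ a = 3 ^ b := by
        have h2 : (2 : ℝ) ^ a = Real.exp (a * Real.log 2) := by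
          rw [Real.exp_nat_mul, Real.exp_log (by norm_num)]
        have h3 : (3 : ℝ) ^ b = Real.exp (b * Real.log 3) := by
          rw [Real.exp_nat_mul, Real.exp_log (by norm_num)]
        rw [h2, h3, ← Real.exp_add, hθ, hAr, hBr]
        congr 1; ring
      have h3pos : (0 : ℝ) < 3 ^ b := by positivity
      have h2pos : (0 : ℝ) < 2 ^ a := by positivity
      rw [abs_sub_comm, abs_of_nonneg (by rw [← hθ']; nlinarith), ← hθ']
      have h5 : Real.exp θ * 2 ^ a - 2 ^ a = (Real.exp θ - 1) * 2 ^ a := by ring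
      rw [h5]
      have h6 : (Real.exp θ - 1) * 2 ^ a ≤ η * 2 ^ a :=
        mul_le_mul_of_nonneg_right (by linarith) h2pos.le
      have h7 : 0 ≤ η * (Real.exp θ * 2 ^ a) := by positivity
      linarith
  · exfalso
    have hAr : (A : ℝ) ≤ 0 := by exact_mod_cast hA0.le
    have hBr : (B : ℝ) ≤ 0 := by exact_mod_cast hB0.le
    have : θ ≤ 0 := by rw [hθ]; nlinarith
    linarith

lemma iter_scale (U : ℕ → ℝ) (p : ℕ) (hp : 1 ≤ p)
    (h : ∀ ε : ℝ, 0 < ε → ∀ᶠ N : ℕ in atTop, |U (p * N) + p * U N| ≤ ε * N) (a : ℕ) :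
    ∀ ε : ℝ, 0 < ε → ∀ᶠ N : ℕ in atTop, |U (p ^ a * N) - (-(p : ℝ)) ^ a * U N| ≤ ε * N := by
  have hp0 : (0 : ℝ) < p := by exact_mod_cast hp
  induction a with
  | zero =>
    intro ε hε
    filter_upwards with N
    simp; positivity
  | succ a ih =>
    intro ε hε
    have h1 := ih (ε / (2 * p)) (by positivity)
    have ht : Tendsto (fun N : ℕ => p ^ a * N) atTop atTop :=
      tendsto_id.const_mul_atTop' (r := p ^ a) (pow_pos (by omega) a)
    have h2 := ht.eventually (h (ε / (2 * p ^ a)) (by positivity))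
    filter_upwards [h1, h2] with N h1 h2
    have e1 : p ^ (a + 1) * N = p * (p ^ a * N) := by ring
    rw [e1]
    have e2 : U (p * (p ^ a * N)) - (-(p : ℝ)) ^ (a + 1) * U N
        = (U (p * (p ^ a * N)) + p * U (p ^ a * N))
          - p * (U (p ^ a * N) - (-(p : ℝ)) ^ a * U N) := by ring
    rw [e2]
    refine (abs_sub _ _).trans ?_
    rw [abs_mul, abs_of_pos hp0]
    have h3 := mul_le_mul_of_nonneg_left h1 hp0.le
    have e3 : p * (ε / (2 * p) * (N : ℝ)) = ε / 2 * N := by field_simp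
    have e4 : ε / (2 * p ^ a) * ((p ^ a * N : ℕ) : ℝ) = ε / 2 * N := by push_cast; field_simp
    rw [e3] at h3
    rw [e4] at h2
    linarith

/-- A slowly varying function odd under dilation by `2` and by `3` has mean value zero. -/
lemma mean_zero (c : ℕ → ℝ) (hc : ∀ n, c n = 1 ∨ c n = -1) (h1 : DZ {n | c (n + 1) ≠ c n})
    (h2 : DZ {n | c (2 * n) ≠ - c n}) (h3 : DZ {n | c (3 * n) ≠ - c n}) :
    ∀ ε : ℝ, 0 < ε → ∀ᶠ N : ℕ in atTop, |∑ n ∈ Ioc 0 N, c n| ≤ ε * N := by
  have habs : ∀ n, |c n| ≤ 1 := fun n => by rcases hc n with h | h <;> rw [h] <;> norm_num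
  set Sg : ℕ → ℝ := fun N => ∑ n ∈ Ioc 0 N, c n with hSg
  -- dilation by two
  have two : ∀ ε : ℝ, 0 < ε → ∀ᶠ N : ℕ in atTop, |Sg (2 * N) + (2 : ℕ) * Sg N| ≤ ε * N := by
    intro ε hε
    have d1 : DZ {n | c (2 * n - 1) ≠ - c n} := by
      have := (h1.preimage_inj 2 (by norm_num) (fun n => 2 * n - 1) (by intro a b _ _ h; omega)
        (by intro n hn; omega)).union h2
      refine this.mono' ?_
      intro n hn hne
      by_contra hcon
      simp only [Set.mem_union, Set.mem_ofPred_eq, not_or, not_not] at hcon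
      apply hne
      have e : 2 * n - 1 + 1 = 2 * n := by omega
      rw [← hcon.2, ← hcon.1, e]
    have a1 := DZ.avg_close (g₁ := fun n => c (2 * n)) (g₂ := fun n => - c n) (fun n => habs _)
      (fun n => by rw [abs_neg]; exact habs n) h2 (ε / 2) (by positivity)
    have a2 := DZ.avg_close (g₁ := fun n => c (2 * n - 1)) (g₂ := fun n => - c n) (fun n => habs _)
      (fun n => by rw [abs_neg]; exact habs n) d1 (ε / 2) (by positivity)
    filter_upwards [a1, a2] with N a1 a2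
    have e : Sg (2 * N) = ∑ n ∈ Ioc 0 N, c (2 * n) + ∑ n ∈ Ioc 0 N, c (2 * n - 1) := by
      simp only [hSg]
      clear a1 a2
      induction N with
      | zero => simp
      | succ M ih =>
        rw [show 2 * (M + 1) = 2 * M + 1 + 1 by ring, Finset.sum_Ioc_succ_top (by omega),
          Finset.sum_Ioc_succ_top (by omega), Finset.sum_Ioc_succ_top (by omega),
          Finset.sum_Ioc_succ_top (by omega), ih, show 2 * (M + 1) = 2 * M + 1 + 1 by ring,
          show 2 * M + 1 + 1 - 1 = 2 * M + 1 by omega]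
        ring
    rw [Finset.sum_neg_distrib] at a1 a2
    rw [e]
    have : ∑ n ∈ Ioc 0 N, c (2 * n) + ∑ n ∈ Ioc 0 N, c (2 * n - 1) + (2 : ℕ) * Sg N
        = (∑ n ∈ Ioc 0 N, c (2 * n) - - Sg N) + (∑ n ∈ Ioc 0 N, c (2 * n - 1) - - Sg N) := by
      push_cast; ring
    rw [this]
    refine (abs_add_le _ _).trans ?_
    have : Sg N = ∑ n ∈ Ioc 0 N, c n := rfl
    rw [this]
    linarith
  have three : ∀ ε : ℝ, 0 < ε → ∀ᶠ N : ℕ in atTop, |Sg (3 * N) + (3 : ℕ) * Sg N| ≤ ε * N := by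
    intro ε hε
    have d1 : DZ {n | c (3 * n - 1) ≠ - c n} := by
      have := (h1.preimage_inj 3 (by norm_num) (fun n => 3 * n - 1) (by intro a b _ _ h; omega)
        (by intro n hn; omega)).union h3
      refine this.mono' ?_
      intro n hn hne
      by_contra hcon
      simp only [Set.mem_union, Set.mem_ofPred_eq, not_or, not_not] at hcon
      apply hne
      have e : 3 * n - 1 + 1 = 3 * n := by omega
      rw [← hcon.2, ← hcon.1, e]
    have d2 : DZ {n | c (3 * n - 2) ≠ - c n} := by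
      have := (h1.preimage_inj 3 (by norm_num) (fun n => 3 * n - 2) (by intro a b _ _ h; omega)
        (by intro n hn; omega)).union d1
      refine this.mono' ?_
      intro n hn hne
      by_contra hcon
      simp only [Set.mem_union, Set.mem_ofPred_eq, not_or, not_not] at hcon
      apply hne
      have e : 3 * n - 2 + 1 = 3 * n - 1 := by omega
      rw [← hcon.2, ← hcon.1, e]
    have a1 := DZ.avg_close (g₁ := fun n => c (3 * n)) (g₂ := fun n => - c n) (fun n => habs _)
      (fun n => by rw [abs_neg]; exact habs n) h3 (ε / 3) (by positivity)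
    have a2 := DZ.avg_close (g₁ := fun n => c (3 * n - 1)) (g₂ := fun n => - c n) (fun n => habs _)
      (fun n => by rw [abs_neg]; exact habs n) d1 (ε / 3) (by positivity)
    have a3 := DZ.avg_close (g₁ := fun n => c (3 * n - 2)) (g₂ := fun n => - c n) (fun n => habs _)
      (fun n => by rw [abs_neg]; exact habs n) d2 (ε / 3) (by positivity)
    filter_upwards [a1, a2, a3] with N a1 a2 a3
    have e : Sg (3 * N) = ∑ n ∈ Ioc 0 N, c (3 * n) + ∑ n ∈ Ioc 0 N, c (3 * n - 1)
        + ∑ n ∈ Ioc 0 N, c (3 * n - 2) := by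
      simp only [hSg]
      clear a1 a2 a3
      induction N with
      | zero => simp
      | succ M ih =>
        rw [show 3 * (M + 1) = 3 * M + 1 + 1 + 1 by ring, Finset.sum_Ioc_succ_top (by omega),
          Finset.sum_Ioc_succ_top (by omega), Finset.sum_Ioc_succ_top (by omega),
          Finset.sum_Ioc_succ_top (by omega), Finset.sum_Ioc_succ_top (by omega),
          Finset.sum_Ioc_succ_top (by omega), ih, show 3 * (M + 1) = 3 * M + 1 + 1 + 1 by ring,
          show 3 * M + 1 + 1 + 1 - 1 = 3 * M + 1 + 1 by omega,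
          show 3 * M + 1 + 1 + 1 - 2 = 3 * M + 1 by omega]
        ring
    rw [Finset.sum_neg_distrib] at a1 a2 a3
    rw [e]
    have : ∑ n ∈ Ioc 0 N, c (3 * n) + ∑ n ∈ Ioc 0 N, c (3 * n - 1) + ∑ n ∈ Ioc 0 N, c (3 * n - 2)
          + (3 : ℕ) * Sg N
        = ((∑ n ∈ Ioc 0 N, c (3 * n) - - Sg N) + (∑ n ∈ Ioc 0 N, c (3 * n - 1) - - Sg N))
          + (∑ n ∈ Ioc 0 N, c (3 * n - 2) - - Sg N) := by
      push_cast; ring
    rw [this]
    refine (abs_add_le _ _).trans ?_
    have h5 := abs_add_le (∑ n ∈ Ioc 0 N, c (3 * n) - - Sg N) (∑ n ∈ Ioc 0 N, c (3 * n - 1) - - Sg N)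
    have : Sg N = ∑ n ∈ Ioc 0 N, c n := rfl
    rw [this] at h5 ⊢
    linarith
  intro ε hε
  obtain ⟨a, b, hodd, hab⟩ := parity_powers (ε / 3) (by positivity)
  filter_upwards [iter_scale Sg 2 (by norm_num) two a (ε / 3) (by positivity),
    iter_scale Sg 3 (by norm_num) three b (ε / 3) (by positivity)] with N i1 i2
  have hdiff : |Sg (2 ^ a * N) - Sg (3 ^ b * N)| ≤ |(2 : ℝ) ^ a - 3 ^ b| * N := by
    have gen : ∀ x y : ℕ, x ≤ y → |Sg x - Sg y| ≤ (y : ℝ) - x := by
      intro x y hxy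
      simp only [hSg]
      rw [← Finset.sum_Ioc_consecutive c (Nat.zero_le x) hxy]
      have : ∑ n ∈ Ioc 0 x, c n - (∑ n ∈ Ioc 0 x, c n + ∑ n ∈ Ioc x y, c n) = - ∑ n ∈ Ioc x y, c n := by
        ring
      rw [this, abs_neg]
      refine (Finset.abs_sum_le_sum_abs _ _).trans ?_
      refine (Finset.sum_le_card_nsmul _ _ 1 (fun n _ => habs n)).trans ?_
      rw [Nat.card_Ioc, nsmul_eq_mul, mul_one, Nat.cast_sub hxy]
    have e1 : |(2 : ℝ) ^ a - 3 ^ b| * N = |((2 ^ a * N : ℕ) : ℝ) - (3 ^ b * N : ℕ)| := by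
      push_cast
      rw [← sub_mul, abs_mul, Nat.abs_cast]
    rw [e1]
    rcases le_total (2 ^ a * N) (3 ^ b * N) with h | h
    · have := gen _ _ h
      rw [abs_sub_comm ((2 ^ a * N : ℕ) : ℝ)]
      exact this.trans (le_abs_self _)
    · have := gen _ _ h
      rw [abs_sub_comm (Sg (2 ^ a * N))]
      exact this.trans (le_abs_self _)
  have hpar : |(-((2 : ℕ) : ℝ)) ^ a - (-((3 : ℕ) : ℝ)) ^ b| = 2 ^ a + 3 ^ b := by
    push_cast
    rcases Nat.even_or_odd a with ha | ha
    · have hb : Odd b := by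
        rcases Nat.even_or_odd b with hb | hb
        · exact absurd (ha.add hb) (Nat.not_even_iff_odd.mpr hodd)
        · exact hb
      rw [ha.neg_pow, hb.neg_pow, sub_neg_eq_add, abs_of_nonneg (by positivity)]
    · have hb : Even b := by
        rcases Nat.even_or_odd b with hb | hb
        · exact hb
        · exact absurd (ha.add_odd hb) (Nat.not_even_iff_odd.mpr hodd)
      rw [ha.neg_pow, hb.neg_pow, ← neg_add', abs_neg, abs_of_nonneg (by positivity)]
  have hS0 : |Sg N| * (2 ^ a + 3 ^ b) ≤ |(2 : ℝ) ^ a - 3 ^ b| * N + 2 * (ε / 3 * N) := by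
    rw [← hpar, ← abs_mul]
    have e : Sg N * ((-((2 : ℕ) : ℝ)) ^ a - (-((3 : ℕ) : ℝ)) ^ b)
        = (Sg (2 ^ a * N) - Sg (3 ^ b * N)) - (Sg (2 ^ a * N) - (-((2 : ℕ) : ℝ)) ^ a * Sg N)
          + (Sg (3 ^ b * N) - (-((3 : ℕ) : ℝ)) ^ b * Sg N) := by ring
    rw [e]
    have h8 := abs_sub (Sg (2 ^ a * N) - Sg (3 ^ b * N)) (Sg (2 ^ a * N) - (-((2 : ℕ) : ℝ)) ^ a * Sg N)
    calc _ ≤ _ := abs_add_le _ _
      _ ≤ _ := add_le_add h8 le_rfl
      _ ≤ _ := add_le_add (add_le_add hdiff i1) i2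
      _ = _ := by ring
  have hN0 : (0 : ℝ) ≤ N := by positivity
  have h4 : |(2 : ℝ) ^ a - 3 ^ b| * N ≤ ε / 3 * (2 ^ a + 3 ^ b) * N := mul_le_mul_of_nonneg_right hab hN0
  have h5 : (2 : ℝ) ≤ 2 ^ a + 3 ^ b := by
    have := one_le_pow₀ (show (1 : ℝ) ≤ 2 by norm_num) (n := a)
    have := one_le_pow₀ (show (1 : ℝ) ≤ 3 by norm_num) (n := b)
    linarith
  have h6 : 2 * (ε / 3 * N) ≤ (2 ^ a + 3 ^ b) * (ε / 3 * N) := mul_le_mul_of_nonneg_right h5 (by positivity)
  have h7 : |Sg N| * (2 ^ a + 3 ^ b) ≤ (ε * N) * (2 ^ a + 3 ^ b) := by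
    have : 0 ≤ (2 ^ a + 3 ^ b) * (ε * (N : ℝ)) := by positivity
    linarith
  exact le_of_mul_le_mul_right h7 (by linarith)

/-- Partial sums. -/
noncomputable def S (G : ℕ → ℝ) (M : ℕ) : ℝ := ∑ n ∈ Ioc 0 M, G n

lemma S_succ (G : ℕ → ℝ) (M : ℕ) : S G (M + 1) = S G M + G (M + 1) := by
  unfold S
  rw [Finset.sum_Ioc_succ_top (Nat.zero_le M)]

lemma S_zero (G : ℕ → ℝ) : S G 0 = 0 := by simp [S]

lemma S_diff (G : ℕ → ℝ) (hG : ∀ n, |G n| ≤ 1) (M t : ℕ) : |S G (M + t) - S G M| ≤ t := by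
  induction t with
  | zero => simp
  | succ t ih =>
    rw [← add_assoc, S_succ]
    have := hG (M + t + 1)
    push_cast
    calc |S G (M + t) + G (M + t + 1) - S G M| = |(S G (M + t) - S G M) + G (M + t + 1)| := by ring_nf
      _ ≤ |S G (M + t) - S G M| + |G (M + t + 1)| := abs_add_le _ _
      _ ≤ t + 1 := by linarith

lemma S_abs (G : ℕ → ℝ) (hG : ∀ n, |G n| ≤ 1) (t : ℕ) : |S G t| ≤ t := by
  have := S_diff G hG 0 t
  simpa [S_zero] using this

lemma shift_sum (K : ℕ → ℝ) (M t : ℕ) :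
    ∑ m ∈ Ioc 0 M, K (m + t) = S K (M + t) - S K t := by
  induction M with
  | zero => simp
  | succ M ih =>
    rw [Finset.sum_Ioc_succ_top (Nat.zero_le M), ih]
    have : M + 1 + t = (M + t) + 1 := by ring
    rw [this, S_succ]; ring

lemma shift_bound (K : ℕ → ℝ) (hK : ∀ n, |K n| ≤ 1) (M t : ℕ) :
    |∑ m ∈ Ioc 0 M, K (m + t) - S K M| ≤ 2 * t := by
  rw [shift_sum]
  have h1 := S_diff K hK M t
  have h2 := S_abs K hK t
  calc |S K (M + t) - S K t - S K M| = |(S K (M + t) - S K M) - S K t| := by ring_nf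
    _ ≤ |S K (M + t) - S K M| + |S K t| := abs_sub _ _
    _ ≤ 2 * t := by linarith

lemma S_two_mul (G : ℕ → ℝ) (M : ℕ) :
    S G (2 * M) = S (fun m => G (2 * m)) M + S (fun m => G (2 * m - 1)) M := by
  induction M with
  | zero => simp [S_zero]
  | succ M ih =>
    have h3 : 2 * (M + 1) = 2 * M + 1 + 1 := by ring
    have h2 : 2 * (M + 1) - 1 = 2 * M + 1 := by omega
    have e1 : S (fun m => G (2 * m)) (M + 1) = S (fun m => G (2 * m)) M + G (2 * M + 1 + 1) := by
      rw [S_succ, ← h3]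
    have e2 : S (fun m => G (2 * m - 1)) (M + 1)
        = S (fun m => G (2 * m - 1)) M + G (2 * M + 1) := by
      rw [S_succ, ← h2]
    rw [e1, e2, h3, S_succ, S_succ, ih]
    ring

/-- The lower bound `-1/3` for every function odd under dilation by `2`. -/
lemma lower_third (f : ℕ → ℝ) (hf : ∀ n, f n = 1 ∨ f n = -1)
    (h2 : ∀ n, 1 ≤ n → f (2 * n) = - f n) (t : ℕ) (N : ℕ) (hN : 1 ≤ N) :
    -(1 / 3) * (N : ℝ) - (4 * t + 7) * (1 + Real.log N)
      ≤ ∑ n ∈ Ioc 0 N, f n * f (n + (2 * t + 1)) := by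
  set G : ℕ → ℝ := fun n => f n * f (n + (2 * t + 1)) with hG
  have hGpm : ∀ n, G n = 1 ∨ G n = -1 := by
    intro n; simp only [hG]
    rcases hf n with a | a <;> rcases hf (n + (2 * t + 1)) with b | b <;> rw [a, b] <;> norm_num
  have hG1 : ∀ n, |G n| ≤ 1 := by
    intro n; rcases hGpm n with h | h <;> rw [h] <;> norm_num
  have hid : ∀ m, 1 ≤ m → G m = G (2 * m) * G (2 * (m + (t + 1)) - 1) := by
    intro m hm
    simp only [hG]
    have e1 : 2 * (m + (t + 1)) - 1 = 2 * m + (2 * t + 1) := by omega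
    have e2 : 2 * m + (2 * t + 1) + (2 * t + 1) = 2 * (m + (2 * t + 1)) := by ring
    rw [e1, e2, h2 m hm, h2 (m + (2 * t + 1)) (by omega)]
    have e3 : f (2 * m + (2 * t + 1)) * f (2 * m + (2 * t + 1)) = 1 := by
      rcases hf (2 * m + (2 * t + 1)) with a | a <;> rw [a] <;> norm_num
    linear_combination (- f m * f (m + (2 * t + 1))) * e3
  have hpt : ∀ m, 1 ≤ m → -1 ≤ G m + (G (2 * m) + G (2 * (m + (t + 1)) - 1)) := by
    intro m hm
    have h1 := hid m hm
    rcases hGpm (2 * m) with a | a <;> rcases hGpm (2 * (m + (t + 1)) - 1) with b | b <;>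
      rw [h1, a, b] <;> norm_num
  have hblock : ∀ M : ℕ, S G M - M - 4 * (t + 1) ≤ S G (4 * M) := by
    intro M
    have hsum : -(M : ℝ) ≤ ∑ m ∈ Ioc M (2 * M), (G m + (G (2 * m) + G (2 * (m + (t + 1)) - 1))) := by
      have h1 := Finset.card_nsmul_le_sum (Ioc M (2 * M))
        (fun m => G m + (G (2 * m) + G (2 * (m + (t + 1)) - 1))) (-1)
        (fun m hm => hpt m (by rw [mem_Ioc] at hm; omega))
      rw [Nat.card_Ioc, nsmul_eq_mul, show 2 * M - M = M by omega] at h1
      linarith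
    have hsplit : ∀ K : ℕ → ℝ, ∑ m ∈ Ioc M (2 * M), K m = S K (2 * M) - S K M := by
      intro K
      unfold S
      rw [← Finset.sum_Ioc_consecutive K (Nat.zero_le M) (show M ≤ 2 * M by omega)]; ring
    rw [sum_add_distrib, sum_add_distrib, hsplit G, hsplit (fun m => G (2 * m)),
      hsplit (fun m => G (2 * (m + (t + 1)) - 1))] at hsum
    have b1 := shift_bound (fun m => G (2 * m - 1)) (fun n => hG1 _) M (t + 1)
    have b2 := shift_bound (fun m => G (2 * m - 1)) (fun n => hG1 _) (2 * M) (t + 1)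
    have c1 := S_two_mul G (2 * M)
    have c2 := S_two_mul G M
    have c3 : 4 * M = 2 * (2 * M) := by ring
    rw [c3]
    have d1 : S (fun m => G (2 * (m + (t + 1)) - 1)) M
        = ∑ m ∈ Ioc 0 M, (fun m => G (2 * m - 1)) (m + (t + 1)) := rfl
    have d2 : S (fun m => G (2 * (m + (t + 1)) - 1)) (2 * M)
        = ∑ m ∈ Ioc 0 (2 * M), (fun m => G (2 * m - 1)) (m + (t + 1)) := rfl
    rw [d1, d2] at hsum
    rw [abs_le] at b1 b2
    push_cast at b1 b2
    linarith [b1.1, b2.2]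
  have main : ∀ N : ℕ, 1 ≤ N → -(1 / 3) * (N : ℝ) - (4 * t + 7) * (1 + Real.log N) ≤ S G N := by
    intro N
    induction N using Nat.strong_induction_on with
    | _ N ih =>
      intro hN
      have ht : (0 : ℝ) ≤ t := by positivity
      have hN1 : (1 : ℝ) ≤ N := by exact_mod_cast hN
      have hlog : 0 ≤ Real.log N := Real.log_nonneg hN1
      by_cases h4 : N < 4
      · have h5 := (abs_le.mp (S_abs G hG1 N)).1
        have h6 : (N : ℝ) ≤ 3 := by exact_mod_cast (by omega : N ≤ 3)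
        nlinarith
      · push Not at h4
        set M := N / 4 with hM
        have hM1 : 1 ≤ M := by omega
        have ih1 := ih M (by omega) hM1
        have hb := hblock M
        have hd := S_diff G hG1 (4 * M) (N - 4 * M)
        rw [Nat.add_sub_cancel' (by omega)] at hd
        have hr : ((N - 4 * M : ℕ) : ℝ) ≤ 3 := by exact_mod_cast (by omega : N - 4 * M ≤ 3)
        have hd1 := (abs_le.mp hd).1
        have hMN : 4 * (M : ℝ) ≤ N := by exact_mod_cast (by omega : 4 * M ≤ N)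
        have hM0 : (1 : ℝ) ≤ M := by exact_mod_cast hM1
        have hlog4 : Real.log M + 1 ≤ Real.log N := by
          have h7 : Real.log (4 * M) ≤ Real.log N := Real.log_le_log (by linarith) hMN
          rw [Real.log_mul (by norm_num) (by linarith)] at h7
          have h8 : (1 : ℝ) ≤ Real.log 4 := by
            have : Real.log 4 = 2 * Real.log 2 := by
              rw [show (4 : ℝ) = 2 ^ 2 by norm_num, Real.log_pow]; norm_num
            rw [this]
            have := Real.log_two_gt_d9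
            linarith
          linarith
        have hmul := mul_le_mul_of_nonneg_left hlog4 (show (0 : ℝ) ≤ 4 * t + 7 by linarith)
        linarith
  exact main N hN

lemma expo_one (P : Set ℕ) : expo P 1 = 0 := by
  unfold expo; simp

/-- A function that is odd under dilation by each `p ∈ P` off density zero agrees, off density
zero, with an exactly odd one. -/
lemma correct (P : Set ℕ) (hP : ∀ p ∈ P, p.Prime)
    (hs : Summable (P.indicator (fun p : ℕ => (1 : ℝ) / p))) (g : ℕ → ℝ)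
    (hgp : ∀ p ∈ P, DZ {n | g (p * n) ≠ - g n}) :
    DZ {n | g n ≠ (-1) ^ expo P n * g (rough P n)} := by
  classical
  -- fixed smooth part
  have hw : ∀ w : ℕ, w ≠ 0 → (∀ q : ℕ, q.Prime → q ∣ w → q ∈ P) →
      DZ {u | g (w * u) ≠ (-1) ^ expo P w * g u} := by
    intro w
    induction w using induction_on_primes with
    | zero => intro h; exact absurd rfl h
    | one =>
      intro _ _
      refine DZ.empty.mono ?_
      intro u hu
      exact hu (by rw [one_mul, expo_one, pow_zero, one_mul])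
    | prime_mul p a hp ih =>
      intro h0 hall
      have ha0 : a ≠ 0 := by rintro rfl; exact h0 (by simp)
      have hpP : p ∈ P := hall p hp (dvd_mul_right p a)
      have ih' := ih ha0 (fun q hq hqa => hall q hq (hqa.mul_left p))
      have h2 : DZ {u | a * u ∈ {n | g (p * n) ≠ - g n}} :=
        (hgp p hpP).preimage_mul a (Nat.one_le_iff_ne_zero.mpr ha0)
      refine (h2.union ih').mono ?_
      intro u hu
      by_contra hcon
      simp only [Set.mem_union, Set.mem_ofPred_eq, not_or, not_not] at hcon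
      apply hu
      rw [mul_assoc, hcon.1, hcon.2, expo_mul P p hpP hp a (Nat.one_le_iff_ne_zero.mpr ha0), pow_succ]
      ring
  intro ε hε
  obtain ⟨Q, hQP, hQ⟩ := core P hs (ε / 4) (by positivity)
  have hQp : ∀ p ∈ Q, p.Prime := fun p hp => hP p (hQP p hp)
  obtain ⟨A, hA⟩ : ∃ A : ℕ, (Q.card : ℝ) * (1 / 2) ^ A ≤ ε / 4 := by
    have h1 : Tendsto (fun A : ℕ => (Q.card : ℝ) * (1 / 2) ^ A) atTop (𝓝 ((Q.card : ℝ) * 0)) :=
      (tendsto_pow_atTop_nhds_zero_of_lt_one (by norm_num) (by norm_num)).const_mul _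
    rw [mul_zero] at h1
    obtain ⟨A, hA⟩ := (h1.eventually (gt_mem_nhds (show (0 : ℝ) < ε / 4 by positivity))).exists
    exact ⟨A, hA.le⟩
  set D : ℕ := ∏ p ∈ Q, p ^ A with hD
  have hD0 : D ≠ 0 := Finset.prod_ne_zero_iff.mpr fun p hp => pow_ne_zero _ (hQp p hp).ne_zero
  have hDP : ∀ q : ℕ, q.Prime → q ∣ D → q ∈ P := by
    intro q hq hqD
    obtain ⟨p, hp, hqp⟩ := (Prime.dvd_finsetProd_iff hq.prime _).mp hqD
    have := (Nat.prime_dvd_prime_iff_eq hq (hQp p hp)).mp (hq.dvd_of_dvd_pow hqp)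
    rw [this]; exact hQP p hp
  have hZ : DZ {n | ∃ w ∈ D.divisors, n ∈ {n | ∃ u ∈ {u | g (w * u) ≠ (-1) ^ expo P w * g u}, n = w * u}} := by
    apply DZ.iUnion
    intro w hw'
    have hwD := Nat.dvd_of_mem_divisors hw'
    have hw0 : w ≠ 0 := fun h => hD0 (by rw [h] at hwD; exact Nat.eq_zero_of_zero_dvd hwD)
    exact (hw w hw0 (fun q hq hqw => hDP q hq (hqw.trans hwD))).image_mul w (Nat.one_le_iff_ne_zero.mpr hw0)
  filter_upwards [hZ (ε / 4) (by positivity), eventually_ge_atTop 1] with N hN hN1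
  set B1 : Set ℕ := {n | ∃ p, (p ∈ P ∧ p ∉ Q) ∧ p ∣ n} with hB1
  set B2 : Set ℕ := {n | ∃ p ∈ Q, p ^ A ∣ n} with hB2
  set B3 : Set ℕ := {n | ∃ w ∈ D.divisors, n ∈ {n | ∃ u ∈ {u | g (w * u) ≠ (-1) ^ expo P w * g u}, n = w * u}} with hB3
  have hsub : cnt {n | g n ≠ (-1) ^ expo P n * g (rough P n)} N ≤ cnt (B1 ∪ (B2 ∪ B3)) N := by
    apply cnt_mono'
    intro n hn0 hnN hn
    by_contra hcon
    simp only [Set.mem_union, not_or] at hcon
    obtain ⟨h1, h2, h3⟩ := hcon
    apply hn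
    have h1' : ∀ p ∈ P, p ∉ Q → ¬ p ∣ n := fun p hp hpQ hpn => h1 ⟨p, ⟨hp, hpQ⟩, hpn⟩
    have hdec := decomp P Q hQP n hn0 h1'
    set w := ∏ p ∈ Q, p ^ n.factorization p with hwdef
    have hw0 : w ≠ 0 := Finset.prod_ne_zero_iff.mpr fun p hp => pow_ne_zero _ (hQp p hp).ne_zero
    have hwD : w ∣ D := by
      apply Finset.prod_dvd_prod_of_dvd
      intro p hp
      apply pow_dvd_pow
      by_contra hc
      push Not at hc
      apply h2
      exact ⟨p, hp, (pow_dvd_pow p hc.le).trans (Nat.ordProj_dvd n p)⟩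
    have hexpw : expo P w = expo P n := by
      rw [decomp_expo P Q hQP n h1', decomp_expo P Q hQP w]
      · refine Finset.sum_congr rfl fun p hp => ?_
        rw [hwdef, Nat.factorization_prod_apply (fun q hq => pow_ne_zero _ (hQp q hq).ne_zero)]
        rw [Finset.sum_eq_single p]
        · rw [(hQp p hp).factorization_pow]; simp
        · intro q hq hqp
          rw [(hQp q hq).factorization_pow, Finsupp.single_apply, if_neg hqp]
        · intro h; exact absurd hp h
      · intro q hqP hqQ hqw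
        obtain ⟨p, hp, hqp⟩ := (Prime.dvd_finsetProd_iff (hP q hqP).prime _).mp hqw
        have := (Nat.prime_dvd_prime_iff_eq (hP q hqP) (hQp p hp)).mp ((hP q hqP).dvd_of_dvd_pow hqp)
        exact hqQ (this ▸ hp)
    by_contra hne
    apply h3
    refine ⟨w, Nat.mem_divisors.mpr ⟨hwD, hD0⟩, rough P n, ?_, hdec⟩
    show g (w * rough P n) ≠ (-1) ^ expo P w * g (rough P n)
    rw [← hdec, hexpw]
    exact hne
  have c1 : cnt B1 N ≤ ε / 4 * N := by
    set R := (Finset.Ioc 0 N).filter (fun p => p ∈ P ∧ p ∉ Q) with hR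
    have h1 := count_dvd R (fun d => d) N
    have h2 : cnt B1 N ≤ (((Finset.Ioc 0 N).filter (fun n => ∃ d ∈ R, d ∣ n)).card : ℝ) := by
      unfold cnt
      rw [← Set.ncard_coe_finset]
      have : (B1 ∩ Set.Ioc 0 N).ncard ≤ (((Finset.Ioc 0 N).filter (fun n => ∃ d ∈ R, d ∣ n) : Finset ℕ) : Set ℕ).ncard := by
        apply Set.ncard_le_ncard _ (Finset.finite_toSet _)
        rintro n ⟨⟨p, hp, hpn⟩, hn⟩
        rw [Finset.mem_coe]
        refine Finset.mem_filter.mpr ⟨Finset.mem_Ioc.mpr hn, p, Finset.mem_filter.mpr ⟨?_, hp⟩, hpn⟩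
        rw [Finset.mem_Ioc]
        exact ⟨(hP p hp.1).pos, (Nat.le_of_dvd hn.1 hpn).trans hn.2⟩
      exact_mod_cast this
    have h3 : ∑ p ∈ R, (1 : ℝ) / p ≤ ε / 4 := hQ R (fun p hp => (Finset.mem_filter.mp hp).2)
    have h4 := mul_le_mul_of_nonneg_left h3 (show (0 : ℝ) ≤ N by positivity)
    have h5 : cnt B1 N ≤ N * ∑ d ∈ R, (1 : ℝ) / d := by
      refine h2.trans ?_
      convert h1
    linarith
  have c2 : cnt B2 N ≤ ε / 4 * N := by
    have h1 := count_dvd Q (fun d => d ^ A) N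
    have h2 : cnt B2 N ≤ (((Finset.Ioc 0 N).filter (fun n => ∃ d ∈ Q, d ^ A ∣ n)).card : ℝ) := by
      unfold cnt
      rw [← Set.ncard_coe_finset]
      have : (B2 ∩ Set.Ioc 0 N).ncard ≤ (((Finset.Ioc 0 N).filter (fun n => ∃ d ∈ Q, d ^ A ∣ n) : Finset ℕ) : Set ℕ).ncard := by
        apply Set.ncard_le_ncard _ (Finset.finite_toSet _)
        rintro n ⟨hn1, hn⟩
        rw [Finset.mem_coe]
        exact Finset.mem_filter.mpr ⟨Finset.mem_Ioc.mpr hn, hn1⟩
      exact_mod_cast this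
    have h6 : ∑ d ∈ Q, (1 : ℝ) / ((d ^ A : ℕ) : ℝ) ≤ Q.card * (1 / 2) ^ A := by
      rw [← nsmul_eq_mul]
      apply Finset.sum_le_card_nsmul
      intro p hp
      push_cast
      rw [one_div_pow]
      apply one_div_le_one_div_of_le (by positivity)
      apply pow_le_pow_left₀ (by norm_num)
      exact_mod_cast (hQp p hp).two_le
    have h4 := mul_le_mul_of_nonneg_left (h6.trans hA) (show (0 : ℝ) ≤ N by positivity)
    have h5 : cnt B2 N ≤ N * ∑ d ∈ Q, (1 : ℝ) / ((d ^ A : ℕ) : ℝ) := by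
      refine h2.trans ?_
      convert h1
    linarith
  have hN' : cnt B3 N ≤ ε / 4 * N := hN
  have u1 := cnt_union B1 (B2 ∪ B3) N
  have u2 := cnt_union B2 B3 N
  have : (0 : ℝ) ≤ ε * N := by positivity
  linarith

lemma densityZero_of_DZ {B : Set ℕ} (h : DZ B) : DensityZero B := by
  unfold DensityZero
  rw [Metric.tendsto_nhds]
  intro ε hε
  filter_upwards [h (ε / 2) (by positivity), eventually_ge_atTop 1] with N hN hN1
  have hNpos : (0 : ℝ) < N := by exact_mod_cast hN1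
  rw [Real.dist_eq, sub_zero, abs_of_nonneg (by positivity)]
  have : ((B ∩ Set.Ioc 0 N).ncard : ℝ) / N ≤ ε / 2 := by
    rw [div_le_iff₀ hNpos]; exact hN
  linarith

lemma DZ_of_densityZero {B : Set ℕ} (h : DensityZero B) : DZ B := by
  intro ε hε
  unfold DensityZero at h
  rw [Metric.tendsto_nhds] at h
  filter_upwards [h ε hε, eventually_ge_atTop 1] with N hN hN1
  have hNpos : (0 : ℝ) < N := by exact_mod_cast hN1
  rw [Real.dist_eq, sub_zero, abs_of_nonneg (by positivity), div_lt_iff₀ hNpos] at hN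
  exact hN.le

lemma avg_tendsto {g₁ g₂ : ℕ → ℝ} (h1 : ∀ n, |g₁ n| ≤ 1) (h2 : ∀ n, |g₂ n| ≤ 1)
    (h : DZ {n | g₁ n ≠ g₂ n}) :
    Tendsto (fun N : ℕ => (∑ n ∈ Ioc 0 N, g₁ n) / N - (∑ n ∈ Ioc 0 N, g₂ n) / N) atTop (𝓝 0) := by
  rw [Metric.tendsto_nhds]
  intro ε hε
  filter_upwards [DZ.avg_close h1 h2 h (ε / 2) (by positivity), eventually_ge_atTop 1] with N hN hN1
  have hNpos : (0 : ℝ) < N := by exact_mod_cast hN1
  rw [Real.dist_eq, sub_zero, ← sub_div, abs_div, abs_of_pos hNpos]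
  have : |∑ n ∈ Ioc 0 N, g₁ n - ∑ n ∈ Ioc 0 N, g₂ n| / N ≤ ε / 2 := by
    rw [div_le_iff₀ hNpos]; exact hN
  linarith

lemma prod_abs {ℓ : ℕ} (g : ℕ → ℝ) (hg : ∀ n, g n = 1 ∨ g n = -1) (h : Fin ℓ → ℕ) (n : ℕ) :
    |∏ j, g (n + h j)| ≤ 1 := by
  rw [Finset.abs_prod]
  apply Finset.prod_le_one (fun j _ => abs_nonneg _)
  intro j _
  rcases hg (n + h j) with e | e <;> rw [e] <;> norm_num

/-- The basic construction. -/
lemma basic (P : Set ℕ) (hP : ∀ p ∈ P, p.Prime)
    (hs : Summable (P.indicator (fun p : ℕ => (1 : ℝ) / p))) (F : ℕ → ℝ) (hF : CompMult F) :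
    ∃ f c : ℕ → ℝ, LiouvilleOn P f ∧ AlmostLiouville f ∧ (∀ n, c n = 1 ∨ c n = -1) ∧
      (∀ h : ℕ, DZ {n | c (n + h) ≠ c n}) ∧ DZ {n | f n ≠ F n * c n} ∧
      (∀ p : ℕ, p.Prime → DZ {n | c (p * n) ≠ - F p * c n}) := by
  obtain ⟨c, hcpm, hcp, hc1⟩ := slow (fun p => - F p)
    (fun p => by rcases hF.1 p with h | h <;> simp [h])
  have hch : ∀ h : ℕ, DZ {n | c (n + h) ≠ c n} := by
    intro h
    induction h with
    | zero => exact DZ.empty.mono fun n hn => hn rfl
    | succ h ih =>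
      refine ((hc1.preimage_add h).union ih).mono ?_
      intro n hn
      by_contra hcon
      simp only [Set.mem_union, Set.mem_ofPred_eq, not_or, not_not] at hcon
      apply hn
      rw [← hcon.2, ← hcon.1, add_assoc]
  set g : ℕ → ℝ := fun n => F n * c n with hg
  have hgpm : ∀ n, g n = 1 ∨ g n = -1 := by
    intro n; simp only [hg]
    rcases hF.1 n with a | a <;> rcases hcpm n with b | b <;> rw [a, b] <;> norm_num
  have hgp : ∀ p : ℕ, p.Prime → DZ {n | g (p * n) ≠ - g n} := by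
    intro p hp
    refine (hcp p hp).mono' ?_
    intro n hn hne hcon
    apply hne
    simp only [hg]
    have hcon' : c (p * n) = - F p * c n := hcon
    rw [hcon', hF.2 p n hp.one_le hn]
    rcases hF.1 p with a | a <;> rw [a] <;> ring
  set f : ℕ → ℝ := fun n => (-1) ^ expo P n * g (rough P n) with hf
  have hfpm : ∀ n, f n = 1 ∨ f n = -1 := by
    intro n; simp only [hf]
    rcases neg_one_pow_eq_or ℝ (expo P n) with a | a <;> rcases hgpm (rough P n) with b | b <;>
      rw [a, b] <;> norm_num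
  have hfg : DZ {n | f n ≠ g n} := by
    refine (correct P hP hs g (fun p hp => hgp p (hP p hp))).mono ?_
    intro n hn hcon
    exact hn hcon.symm
  refine ⟨f, c, ⟨hfpm, ?_⟩, ⟨hfpm, ?_⟩, hcpm, hch, hfg, hcp⟩
  · intro p hp n hn
    simp only [hf]
    rw [rough_mul P p hp (hP p hp) n hn, expo_mul P p hp (hP p hp) n hn, pow_succ]
    ring
  · intro p hp
    apply densityZero_of_DZ
    refine ((hfg.preimage_mul p hp.one_le).union ((hgp p hp).union hfg)).mono ?_
    intro n hn
    by_contra hcon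
    simp only [Set.mem_union, Set.mem_ofPred_eq, not_or, not_not] at hcon
    apply hn
    rw [hcon.1, hcon.2.1, hcon.2.2]

/-- The lower bound `-1/2` for shifts congruent to `2` modulo `4`. -/
lemma lower_half (f : ℕ → ℝ) (hf : ∀ n, f n = 1 ∨ f n = -1)
    (h2 : ∀ n, 1 ≤ n → f (2 * n) = - f n) (t : ℕ) (N : ℕ) :
    -(1 / 2) * (N : ℝ) - (2 * t + 3) ≤ ∑ n ∈ Ioc 0 N, f n * f (n + (4 * t + 2)) := by
  set b : ℕ → ℝ := fun n => f n * f (n + (2 * t + 1)) with hb
  set c : ℕ → ℝ := fun n => f n * f (n + (4 * t + 2)) with hc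
  have hbpm : ∀ n, b n = 1 ∨ b n = -1 := by
    intro n; simp only [hb]
    rcases hf n with x | x <;> rcases hf (n + (2 * t + 1)) with y | y <;> rw [x, y] <;> norm_num
  have hcpm : ∀ n, c n = 1 ∨ c n = -1 := by
    intro n; simp only [hc]
    rcases hf n with x | x <;> rcases hf (n + (4 * t + 2)) with y | y <;> rw [x, y] <;> norm_num
  have hb1 : ∀ n, |b n| ≤ 1 := by intro n; rcases hbpm n with h | h <;> rw [h] <;> norm_num
  have hc1 : ∀ n, |c n| ≤ 1 := by intro n; rcases hcpm n with h | h <;> rw [h] <;> norm_num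
  have hce : ∀ m, 1 ≤ m → c (2 * m) = b m := by
    intro m hm
    simp only [hb, hc]
    have e : 2 * m + (4 * t + 2) = 2 * (m + (2 * t + 1)) := by ring
    rw [e, h2 m hm, h2 _ (by omega)]; ring
  have hcb : ∀ n, c n = b n * b (n + (2 * t + 1)) := by
    intro n
    simp only [hb, hc]
    have e : n + (2 * t + 1) + (2 * t + 1) = n + (4 * t + 2) := by ring
    rw [e]
    have e3 : f (n + (2 * t + 1)) * f (n + (2 * t + 1)) = 1 := by
      rcases hf (n + (2 * t + 1)) with a | a <;> rw [a] <;> norm_num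
    linear_combination (- f n * f (n + (4 * t + 2))) * e3
  have hpt : ∀ m, 1 ≤ m → -(b (2 * m - 1) + b (2 * (m + t))) ≤ c (2 * m - 1) + 1 := by
    intro m hm
    rw [hcb]
    have e : 2 * m - 1 + (2 * t + 1) = 2 * (m + t) := by omega
    rw [e]
    rcases hbpm (2 * m - 1) with x | x <;> rcases hbpm (2 * (m + t)) with y | y <;>
      rw [x, y] <;> norm_num
  have heven : ∀ M : ℕ, -(M : ℝ) - (2 * t + 1) ≤ S c (2 * M) := by
    intro M
    rw [S_two_mul]
    have h1 : S (fun m => c (2 * m)) M = S b M := by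
      unfold S
      refine Finset.sum_congr rfl fun m hm => ?_
      rw [Finset.mem_Ioc] at hm
      exact hce m (by omega)
    set K := (M + 1) / 2 with hK
    have hKM : K ≤ M := by omega
    have h2' : S (fun m => c (2 * m - 1)) M + M ≥ S (fun m => c (2 * m - 1)) K + K := by
      unfold S
      rw [← Finset.sum_Ioc_consecutive _ (Nat.zero_le K) hKM]
      have : -(((M - K : ℕ) : ℝ)) ≤ ∑ m ∈ Ioc K M, c (2 * m - 1) := by
        have h3 := Finset.card_nsmul_le_sum (Ioc K M) (fun m => c (2 * m - 1)) (-1)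
          (fun m _ => by rcases hcpm (2 * m - 1) with h | h <;> rw [h] <;> norm_num)
        rw [Nat.card_Ioc, nsmul_eq_mul] at h3
        linarith
      rw [Nat.cast_sub hKM] at this
      linarith
    have h3 : S (fun m => c (2 * m - 1)) K + K
        ≥ -(S (fun m => b (2 * m - 1)) K + ∑ m ∈ Ioc 0 K, (fun m => b (2 * m)) (m + t)) := by
      unfold S
      have e : ∑ m ∈ Ioc 0 K, c (2 * m - 1) + (K : ℝ) = ∑ m ∈ Ioc 0 K, (c (2 * m - 1) + 1) := by
        rw [Finset.sum_add_distrib, Finset.sum_const, Nat.card_Ioc, nsmul_eq_mul, mul_one,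
          Nat.sub_zero]
      rw [e, ← Finset.sum_add_distrib, ← Finset.sum_neg_distrib]
      apply Finset.sum_le_sum
      intro m hm
      rw [Finset.mem_Ioc] at hm
      exact hpt m (by omega)
    have h4 := shift_bound (fun m => b (2 * m)) (fun n => hb1 _) K t
    have h5 := S_two_mul b K
    have h6 : |S b (2 * K) - S b M| ≤ 1 := by
      have h7 := S_diff b hb1 M (2 * K - M)
      rw [Nat.add_sub_cancel' (by omega)] at h7
      have : ((2 * K - M : ℕ) : ℝ) ≤ 1 := by exact_mod_cast (by omega : 2 * K - M ≤ 1)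
      linarith
    rw [h1]
    rw [abs_le] at h4 h6
    linarith [h4.2, h6.2]
  have hM := heven (N / 2)
  have hd := S_diff c hc1 (2 * (N / 2)) (N - 2 * (N / 2))
  rw [Nat.add_sub_cancel' (by omega)] at hd
  have hr : ((N - 2 * (N / 2) : ℕ) : ℝ) ≤ 1 := by exact_mod_cast (by omega : N - 2 * (N / 2) ≤ 1)
  have hd1 := (abs_le.mp hd).1
  have hN2 : ((N / 2 : ℕ) : ℝ) ≤ N / 2 := Nat.cast_div_le
  show _ ≤ S c N
  linarith

/-- `(-1) ^ v₂ n` -/
noncomputable def F2 (n : ℕ) : ℝ := (-1) ^ (n.factorization 2)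

lemma F2_pm (n : ℕ) : F2 n = 1 ∨ F2 n = -1 := neg_one_pow_eq_or ℝ _

lemma F2_compMult : CompMult F2 := by
  refine ⟨F2_pm, fun m n hm hn => ?_⟩
  unfold F2
  rw [Nat.factorization_mul (by omega) (by omega), Finsupp.add_apply, pow_add]

lemma F2_odd (n : ℕ) (hn : n % 2 ≠ 0) : F2 n = 1 := by
  have h : n.factorization 2 = 0 := by
    apply Nat.factorization_eq_zero_of_not_dvd
    intro h; exact hn (Nat.mod_eq_zero_of_dvd h)
  unfold F2
  rw [h, pow_zero]

lemma F2_two (n : ℕ) (hn : 1 ≤ n) : F2 (2 * n) = - F2 n := by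
  rw [F2_compMult.2 2 n (by norm_num) hn]
  have : F2 2 = -1 := by
    unfold F2
    rw [Nat.Prime.factorization_self Nat.prime_two]; norm_num
  rw [this]; ring

lemma abs_of_pm {x : ℝ} (h : x = 1 ∨ x = -1) : |x| ≤ 1 := by
  rcases h with h | h <;> rw [h] <;> norm_num

lemma F2_mean (N : ℕ) (hN : 1 ≤ N) : |S F2 N - N / 3| ≤ 1 + 2 * Real.log N := by
  have hhalf : ∀ M : ℕ, S F2 (2 * M) = M - S F2 M := by
    intro M
    rw [S_two_mul]
    have h1 : S (fun m => F2 (2 * m)) M = - S F2 M := by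
      unfold S
      rw [← Finset.sum_neg_distrib]
      refine Finset.sum_congr rfl fun m hm => ?_
      rw [Finset.mem_Ioc] at hm
      exact F2_two m (by omega)
    have h2 : S (fun m => F2 (2 * m - 1)) M = M := by
      unfold S
      rw [Finset.sum_congr rfl (fun m hm => F2_odd (2 * m - 1) (by rw [Finset.mem_Ioc] at hm; omega))]
      simp
    rw [h1, h2]; ring
  induction N using Nat.strong_induction_on with
  | _ N ih =>
    have hN1 : (1 : ℝ) ≤ N := by exact_mod_cast hN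
    rcases Nat.lt_or_ge N 2 with hlt | hge
    · have : N = 1 := by omega
      subst this
      have : S F2 1 = 1 := by
        have h := S_succ F2 0
        rw [S_zero, zero_add, zero_add] at h
        rw [h]; exact F2_odd 1 (by norm_num)
      rw [this]; norm_num
    · set M := N / 2 with hM
      have ihM := ih M (by omega) (by omega)
      have hM1 : (1 : ℝ) ≤ M := by exact_mod_cast (by omega : 1 ≤ M)
      have hlog : Real.log M + Real.log 2 ≤ Real.log N := by
        rw [← Real.log_mul (by linarith) (by norm_num)]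
        apply Real.log_le_log (by positivity)
        exact_mod_cast (by omega : M * 2 ≤ N)
      have hl2 := Real.log_two_gt_d9
      have e2 := hhalf M
      rcases Nat.even_or_odd N with he | ho
      · have hNM : N = 2 * M := by obtain ⟨k, hk⟩ := he; omega
        have e : S F2 N - N / 3 = -(S F2 M - M / 3) := by
          rw [hNM, e2]; push_cast; ring
        rw [e, abs_neg]
        linarith
      · have hNM : N = 2 * M + 1 := by obtain ⟨k, hk⟩ := ho; omega
        have e : S F2 N - N / 3 = -(S F2 M - M / 3) + 2 / 3 := by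
          rw [hNM, S_succ, e2, F2_odd (2 * M + 1) (by omega)]; push_cast; ring
        rw [e]
        refine (abs_add_le _ _).trans ?_
        rw [abs_neg, abs_of_pos (show (0 : ℝ) < 2 / 3 by norm_num)]
        linarith

lemma F2_corr (t N : ℕ) (hN : 2 ≤ N) :
    |∑ n ∈ Ioc 0 N, F2 n * F2 (n + (2 * t + 1)) + N / 3| ≤ 4 * Real.log N + (4 * t + 5) := by
  set G : ℕ → ℝ := fun n => if n % 2 = 0 then F2 n else 0 with hG
  have hG1 : ∀ n, |G n| ≤ 1 := by
    intro n; simp only [hG]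
    split_ifs
    · exact abs_of_pm (F2_pm n)
    · simp
  have hpt : ∀ n, F2 n * F2 (n + (2 * t + 1)) = G n + G (n + (2 * t + 1)) := by
    intro n
    simp only [hG]
    rcases Nat.even_or_odd n with he | ho
    · have h1 : n % 2 = 0 := Nat.even_iff.mp he
      have h2 : ¬ (n + (2 * t + 1)) % 2 = 0 := by omega
      rw [if_pos h1, if_neg h2, F2_odd _ h2]; ring
    · have h1 : ¬ n % 2 = 0 := by have := Nat.odd_iff.mp ho; omega
      have h2 : (n + (2 * t + 1)) % 2 = 0 := by omega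
      rw [if_neg h1, if_pos h2, F2_odd _ h1]; ring
  simp_rw [hpt]
  rw [Finset.sum_add_distrib]
  have h1 := shift_bound G hG1 N (2 * t + 1)
  -- the sum of `G`
  set M := N / 2 with hM
  have h2 : S G (2 * M) = - S F2 M := by
    rw [S_two_mul]
    have a1 : S (fun m => G (2 * m)) M = - S F2 M := by
      unfold S
      rw [← Finset.sum_neg_distrib]
      refine Finset.sum_congr rfl fun m hm => ?_
      rw [Finset.mem_Ioc] at hm
      simp only [hG]
      rw [if_pos (by omega)]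
      exact F2_two m (by omega)
    have a2 : S (fun m => G (2 * m - 1)) M = 0 := by
      unfold S
      refine Finset.sum_eq_zero fun m hm => ?_
      rw [Finset.mem_Ioc] at hm
      simp only [hG]
      rw [if_neg (by omega)]
    rw [a1, a2, add_zero]
  have h3 : S G N = S G (2 * M) := by
    rcases Nat.even_or_odd N with he | ho
    · have hNM : N = 2 * M := by obtain ⟨k, hk⟩ := he; omega
      rw [← hNM]
    · have hNM : N = 2 * M + 1 := by obtain ⟨k, hk⟩ := ho; omega
      rw [hNM, S_succ]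
      simp only [hG]
      rw [if_neg (by omega), add_zero]
  have h4 := F2_mean M (by omega)
  have hMN : (M : ℝ) ≤ N := by exact_mod_cast (by omega : M ≤ N)
  have hM1 : (1 : ℝ) ≤ M := by exact_mod_cast (by omega : 1 ≤ M)
  have hlog : Real.log M ≤ Real.log N := Real.log_le_log (by linarith) hMN
  have hb1 : 2 * (M : ℝ) ≤ N := by exact_mod_cast (by omega : 2 * M ≤ N)
  have hb2 : (N : ℝ) ≤ 2 * M + 1 := by exact_mod_cast (by omega : N ≤ 2 * M + 1)
  have hSG : ∑ n ∈ Ioc 0 N, G n = S G N := rfl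
  rw [hSG, h3, h2]
  rw [h3, h2] at h1
  push_cast at h1
  rw [abs_le] at h1 h4 ⊢
  constructor <;> linarith [h1.1, h1.2, h4.1, h4.2]

/-- The completely multiplicative function equal to the odd character mod 4 off `2`, `-1` at `2`. -/
noncomputable def F4 (n : ℕ) : ℝ :=
  (-1) ^ (n.factorization 2) * (if (n / 2 ^ n.factorization 2) % 4 = 1 then 1 else -1)

lemma F4_pm (n : ℕ) : F4 n = 1 ∨ F4 n = -1 := by
  unfold F4
  rcases neg_one_pow_eq_or ℝ (n.factorization 2) with h | h <;> rw [h] <;> split_ifs <;> norm_num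

lemma F4_compMult : CompMult F4 := by
  refine ⟨F4_pm, fun m n hm hn => ?_⟩
  unfold F4
  have hm0 : m ≠ 0 := by omega
  have hn0 : n ≠ 0 := by omega
  have h1 : (m * n) / 2 ^ (m * n).factorization 2
      = (m / 2 ^ m.factorization 2) * (n / 2 ^ n.factorization 2) := Nat.ordCompl_mul m n 2
  rw [h1, Nat.factorization_mul hm0 hn0, Finsupp.add_apply, pow_add]
  have h2 : (m / 2 ^ m.factorization 2) % 2 ≠ 0 := by
    intro h; exact Nat.not_dvd_ordCompl Nat.prime_two hm0 (Nat.dvd_of_mod_eq_zero h)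
  have h3 : (n / 2 ^ n.factorization 2) % 2 ≠ 0 := by
    intro h; exact Nat.not_dvd_ordCompl Nat.prime_two hn0 (Nat.dvd_of_mod_eq_zero h)
  generalize (m / 2 ^ m.factorization 2) = a at *
  generalize (n / 2 ^ n.factorization 2) = b at *
  rw [Nat.mul_mod]
  have ha : a % 4 = 1 ∨ a % 4 = 3 := by omega
  have hb : b % 4 = 1 ∨ b % 4 = 3 := by omega
  rcases ha with ha | ha <;> rcases hb with hb | hb <;> rw [ha, hb] <;> norm_num

lemma F4_odd (n : ℕ) (hn : n % 2 ≠ 0) : F4 n = if n % 4 = 1 then 1 else -1 := by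
  have h : n.factorization 2 = 0 := by
    apply Nat.factorization_eq_zero_of_not_dvd
    intro h; exact hn (Nat.mod_eq_zero_of_dvd h)
  unfold F4
  rw [h]; simp

lemma F4_two (n : ℕ) (hn : 1 ≤ n) : F4 (2 * n) = - F4 n := by
  rw [F4_compMult.2 2 n (by norm_num) hn]
  have : F4 2 = -1 := by
    unfold F4
    rw [Nat.Prime.factorization_self Nat.prime_two]; norm_num
  rw [this]; ring

lemma F4_corr (t N : ℕ) :
    |∑ n ∈ Ioc 0 N, F4 n * F4 (n + (4 * t + 2)) + N / 2| ≤ 4 * t + 4 := by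
  set c : ℕ → ℝ := fun n => F4 n * F4 (n + (4 * t + 2)) with hc
  have hc1 : ∀ n, |c n| ≤ 1 := by
    intro n
    simp only [hc]
    rw [abs_mul]
    exact mul_le_one₀ (abs_of_pm (F4_pm n)) (abs_nonneg _) (abs_of_pm (F4_pm _))
  set K : ℕ → ℝ := fun m => (if m % 2 = 0 then F4 m else 0) *
    (if (m + (2 * t + 1)) % 4 = 1 then 1 else -1) with hK
  have hK1 : ∀ n, |K n| ≤ 1 := by
    intro n; simp only [hK]
    rw [abs_mul]
    apply mul_le_one₀ _ (abs_nonneg _)
    · split_ifs <;> norm_num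
    · split_ifs
      · exact abs_of_pm (F4_pm n)
      · simp
  have hev : ∀ m, 1 ≤ m → c (2 * m) = K m - K (m + (2 * t + 1)) := by
    intro m hm
    simp only [hc]
    have e : 2 * m + (4 * t + 2) = 2 * (m + (2 * t + 1)) := by ring
    rw [e, F4_two m hm, F4_two _ (by omega)]
    simp only [hK]
    rcases Nat.even_or_odd m with he | ho
    · have h1 : m % 2 = 0 := Nat.even_iff.mp he
      have h2 : ¬ (m + (2 * t + 1)) % 2 = 0 := by omega
      rw [if_pos h1, if_neg h2, F4_odd _ h2]; ring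
    · have h1 : ¬ m % 2 = 0 := by have := Nat.odd_iff.mp ho; omega
      have h2 : (m + (2 * t + 1)) % 2 = 0 := by omega
      rw [if_neg h1, if_pos h2, F4_odd _ h1]
      have h3 : m % 4 = 1 ∨ m % 4 = 3 := by omega
      rcases h3 with h3 | h3
      · rw [if_pos h3, if_neg (by omega : ¬ (m + (2 * t + 1) + (2 * t + 1)) % 4 = 1)]; ring
      · rw [if_neg (by omega : ¬ m % 4 = 1),
          if_pos (by omega : (m + (2 * t + 1) + (2 * t + 1)) % 4 = 1)]; ring
  have hod : ∀ m, 1 ≤ m → c (2 * m - 1) = -1 := by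
    intro m hm
    simp only [hc]
    rw [F4_odd (2 * m - 1) (by omega), F4_odd (2 * m - 1 + (4 * t + 2)) (by omega)]
    by_cases h3 : (2 * m - 1) % 4 = 1
    · rw [if_pos h3, if_neg (by omega : ¬ (2 * m - 1 + (4 * t + 2)) % 4 = 1)]; ring
    · rw [if_neg h3, if_pos (by omega : (2 * m - 1 + (4 * t + 2)) % 4 = 1)]; ring
  set M := N / 2 with hM
  have h1 : S c (2 * M) = (S K M - ∑ m ∈ Ioc 0 M, K (m + (2 * t + 1))) - M := by
    rw [S_two_mul]
    have a1 : S (fun m => c (2 * m)) M = S K M - ∑ m ∈ Ioc 0 M, K (m + (2 * t + 1)) := by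
      unfold S
      rw [← Finset.sum_sub_distrib]
      refine Finset.sum_congr rfl fun m hm => ?_
      rw [Finset.mem_Ioc] at hm
      exact hev m (by omega)
    have a2 : S (fun m => c (2 * m - 1)) M = - M := by
      unfold S
      rw [Finset.sum_congr rfl (fun m hm => hod m (by rw [Finset.mem_Ioc] at hm; omega))]
      simp
    rw [a1, a2]; ring
  have h2 := shift_bound K hK1 M (2 * t + 1)
  have hd := S_diff c hc1 (2 * M) (N - 2 * M)
  rw [Nat.add_sub_cancel' (by omega)] at hd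
  have hr : ((N - 2 * M : ℕ) : ℝ) ≤ 1 := by exact_mod_cast (by omega : N - 2 * M ≤ 1)
  have hb1 : 2 * (M : ℝ) ≤ N := by exact_mod_cast (by omega : 2 * M ≤ N)
  have hb2 : (N : ℝ) ≤ 2 * M + 1 := by exact_mod_cast (by omega : N ≤ 2 * M + 1)
  have hS : ∑ n ∈ Ioc 0 N, c n = S c N := rfl
  rw [hS]
  rw [h1] at hd
  push_cast at h2
  rw [abs_le] at h2 hd ⊢
  constructor <;> linarith [h2.1, h2.2, hd.1, hd.2]

end Pool.Agent.Helper8.Dilation
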